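import Pool.Agent.Y50.FE.CC.Dat

/-! Checks of components. -/

set_option autoImplicit false
set_option maxRecDepth 100000

namespace Pool.Agent.Y50.FE.CC

noncomputable def c2_0_0 : Crt := ⟨65538, 1, 1, [.an 32769 0 0 [0]],
 [false],
 [3]⟩

theorem t2_0_0 : c2_0_0.chk true E = true := by decide +kernel

noncomputable def c1_1_0 : Crt := ⟨65569, 1, 2, [.an 32800 0 0 [1]],
 [false, true],
 [1]⟩

theorem t1_1_0 : c1_1_0.chk true E = true := by decide +kernel

noncomputable def c1_0_1 : Crt := ⟨66561, 1, 1, [.an 33792 0 0 [2]],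
 [false, true],
 [1]⟩

theorem t1_0_1 : c1_0_1.chk true E = true := by decide +kernel

noncomputable def c0_2_0 : Crt := ⟨65600, 0, 1, [.an 32800 0 1 [1]],
 [false],
 [3]⟩

theorem t0_2_0 : c0_2_0.chk true E = true := by decide +kernel

noncomputable def c0_1_1 : Crt := ⟨66592, 0, 1, [.an 33792 0 1 [2]],
 [false, true],
 [1]⟩

theorem t0_1_1 : c0_1_1.chk true E = true := by decide +kernel

noncomputable def c0_0_2 : Crt := ⟨67584, 0, 0, [.an 33792 0 2 [2]],
 [false],
 [3]⟩

theorem t0_0_2 : c0_0_2.chk true E = true := by decide +kernel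

noncomputable def c2_1_0 : Crt := ⟨98338, 1, 1, [],
 [true],
 []⟩

theorem t2_1_0 : c2_1_0.chk true E = true := by decide +kernel

noncomputable def c2_0_1 : Crt := ⟨99330, 1, 1, [],
 [true],
 []⟩

theorem t2_0_1 : c2_0_1.chk true E = true := by decide +kernel

noncomputable def c1_2_0 : Crt := ⟨98369, 0, 1, [],
 [true],
 []⟩

theorem t1_2_0 : c1_2_0.chk true E = true := by decide +kernel

noncomputable def c1_1_1 : Crt := ⟨99361, 1, 2, [.an 66592 0 0 [2, 1]],
 [false, true, true],
 [1]⟩

theorem t1_1_1 : c1_1_1.chk true E = true := by decide +kernel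

noncomputable def c1_0_2 : Crt := ⟨100353, 0, 0, [],
 [true],
 []⟩

theorem t1_0_2 : c1_0_2.chk true E = true := by decide +kernel

noncomputable def c0_2_1 : Crt := ⟨99392, 0, 1, [],
 [true],
 []⟩

theorem t0_2_1 : c0_2_1.chk true E = true := by decide +kernel

noncomputable def c0_1_2 : Crt := ⟨100384, 0, 0, [],
 [true],
 []⟩

theorem t0_1_2 : c0_1_2.chk true E = true := by decide +kernel

noncomputable def c3_1_0 : Crt := ⟨131107, 1, 1, [.cu 32800 0],
 [false],
 [4]⟩

theorem t3_1_0 : c3_1_0.chk true E = true := by decide +kernel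

noncomputable def c3_0_1 : Crt := ⟨132099, 1, 1, [.cu 33792 0],
 [false],
 [4]⟩

theorem t3_0_1 : c3_0_1.chk true E = true := by decide +kernel

noncomputable def c2_2_0 : Crt := ⟨131138, 1, 2, [.an 98369 0 0 [1, 1, 0]],
 [false, true],
 [3]⟩

theorem t2_2_0 : c2_2_0.chk true E = true := by decide +kernel

noncomputable def c2_1_1 : Crt := ⟨132130, 2, 3, [.an 99361 0 0 [1, 2, 0]],
 [false, true, true, true],
 [1]⟩

theorem t2_1_1 : c2_1_1.chk true E = true := by decide +kernel

noncomputable def c2_0_2 : Crt := ⟨133122, 1, 1, [.an 100353 0 0 [2, 2, 0]],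
 [false, true],
 [3]⟩

theorem t2_0_2 : c2_0_2.chk true E = true := by decide +kernel

noncomputable def c1_3_0 : Crt := ⟨131169, 0, 1, [],
 [true],
 []⟩

theorem t1_3_0 : c1_3_0.chk true E = true := by decide +kernel

noncomputable def c1_2_1 : Crt := ⟨132161, 1, 3, [.an 99392 0 0 [1, 2, 1]],
 [false, true, true, true],
 [1]⟩

theorem t1_2_1 : c1_2_1.chk true E = true := by decide +kernel

noncomputable def c1_1_2 : Crt := ⟨133153, 1, 2, [.an 100384 0 0 [2, 2, 1]],
 [false, true, true, true],
 [1]⟩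

theorem t1_1_2 : c1_1_2.chk true E = true := by decide +kernel

noncomputable def c1_0_3 : Crt := ⟨134145, 0, 0, [],
 [true],
 []⟩

theorem t1_0_3 : c1_0_3.chk true E = true := by decide +kernel

noncomputable def c0_3_1 : Crt := ⟨132192, 0, 1, [],
 [true],
 []⟩

theorem t0_3_1 : c0_3_1.chk true E = true := by decide +kernel

noncomputable def c0_2_2 : Crt := ⟨133184, 0, 1, [.an 100384 0 1 [2, 2, 1]],
 [false, true],
 [3]⟩

theorem t0_2_2 : c0_2_2.chk true E = true := by decide +kernel

noncomputable def c0_1_3 : Crt := ⟨134176, 0, 0, [],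
 [true],
 []⟩

theorem t0_1_3 : c0_1_3.chk true E = true := by decide +kernel

noncomputable def c3_2_0 : Crt := ⟨163907, 1, 1, [.p31 32800 0 0 [1]],
 [false],
 [2]⟩

theorem t3_2_0 : c3_2_0.chk true E = true := by decide +kernel

noncomputable def c3_1_1 : Crt := ⟨164899, 3, 3, [.cu 66592 0, .p31 33792 0 0 [1], .p31 32800 0 0 [2]],
 [false, false, false],
 [0x89, 0x5c, 0x123]⟩

theorem t3_1_1 : c3_1_1.chk true E = true := by decide +kernel

noncomputable def c3_0_2 : Crt := ⟨165891, 1, 1, [.p31 33792 0 0 [2]],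
 [false],
 [2]⟩

theorem t3_0_2 : c3_0_2.chk true E = true := by decide +kernel

noncomputable def c2_3_0 : Crt := ⟨163938, 1, 2, [.p31 32769 0 1 [0]],
 [false, true],
 [1]⟩

theorem t2_3_0 : c2_3_0.chk true E = true := by decide +kernel

noncomputable def c2_2_1 : Crt := ⟨164930, 3, 6, [.p211 33792 0 0 [1] [1], .p211 32800 0 0 [1] [2]],
 [false, false, true, true, true, true, true],
 [0x1a, 0x22]⟩

theorem t2_2_1 : c2_2_1.chk true E = true := by decide +kernel

noncomputable def c2_1_2 : Crt := ⟨165922, 3, 4, [.p211 33792 0 0 [1] [2], .p211 32800 0 0 [2] [2]],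
 [false, false, true, true, true, true, true],
 [0x1a, 8]⟩

theorem t2_1_2 : c2_1_2.chk true E = true := by decide +kernel

noncomputable def c2_0_3 : Crt := ⟨166914, 1, 1, [.p31 32769 0 2 [0]],
 [false, true],
 [1]⟩

theorem t2_0_3 : c2_0_3.chk true E = true := by decide +kernel

noncomputable def c1_4_0 : Crt := ⟨163969, 0, 1, [.p1 32769 0 1],
 [false],
 [1]⟩

theorem t1_4_0 : c1_4_0.chk true E = true := by decide +kernel

noncomputable def c1_3_1 : Crt := ⟨164961, 1, 4, [.p31 33792 0 1 [0], .p31 32769 0 1 [2]],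
 [false, false, true, true, true],
 [0x22, 1]⟩

theorem t1_3_1 : c1_3_1.chk true E = true := by decide +kernel

noncomputable def c1_2_2 : Crt := ⟨165953, 1, 4, [.p211 33792 0 1 [0] [2], .p211 32769 0 1 [2] [2]],
 [false, false, true, true, true, true, true],
 [0x10, 3]⟩

theorem t1_2_2 : c1_2_2.chk true E = true := by decide +kernel

noncomputable def c1_1_3 : Crt := ⟨166945, 1, 2, [.p31 32800 0 2 [0], .p31 32769 0 2 [1]],
 [false, false, true, true, true],
 [8, 1]⟩

theorem t1_1_3 : c1_1_3.chk true E = true := by decide +kernel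

noncomputable def c1_0_4 : Crt := ⟨167937, 0, 0, [.p1 32769 0 2],
 [false],
 [1]⟩

theorem t1_0_4 : c1_0_4.chk true E = true := by decide +kernel

noncomputable def c0_4_1 : Crt := ⟨164992, 0, 1, [.p1 33792 0 1],
 [false],
 [4]⟩

theorem t0_4_1 : c0_4_1.chk true E = true := by decide +kernel

noncomputable def c0_3_2 : Crt := ⟨165984, 0, 1, [.p31 33792 0 1 [2]],
 [false, true],
 [2]⟩

theorem t0_3_2 : c0_3_2.chk true E = true := by decide +kernel

noncomputable def c0_2_3 : Crt := ⟨166976, 0, 1, [.p31 32800 0 2 [1]],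
 [false, true],
 [1]⟩

theorem t0_2_3 : c0_2_3.chk true E = true := by decide +kernel

noncomputable def c0_1_4 : Crt := ⟨167968, 0, 0, [.p1 32800 0 2],
 [false],
 [1]⟩

theorem t0_1_4 : c0_1_4.chk true E = true := by decide +kernel

noncomputable def c3_3_0 : Crt := ⟨196707, 1, 1, [],
 [true],
 []⟩

theorem t3_3_0 : c3_3_0.chk true E = true := by decide +kernel

noncomputable def c3_2_1 : Crt := ⟨197699, 5, 5, [.cu 99392 0, .p31 66592 0 0 [1], .p31 32800 0 0 [1, 2]],
 [false, false, true, false, true],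
 [0x12, 0x112, 0x10b]⟩

theorem t3_2_1 : c3_2_1.chk true E = true := by decide +kernel

noncomputable def c3_1_2 : Crt := ⟨198691, 5, 5, [.cu 100384 0, .p31 66592 0 0 [2], .p31 33792 0 0 [1, 2]],
 [false, false, false, true, true],
 [0xd2, 0x10b, 0xa3]⟩

theorem t3_1_2 : c3_1_2.chk true E = true := by decide +kernel

noncomputable def c3_0_3 : Crt := ⟨199683, 1, 1, [],
 [true],
 []⟩

theorem t3_0_3 : c3_0_3.chk true E = true := by decide +kernel

noncomputable def c2_4_0 : Crt := ⟨196738, 0, 1, [],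
 [true],
 []⟩

theorem t2_4_0 : c2_4_0.chk true E = true := by decide +kernel

noncomputable def c2_3_1 : Crt := ⟨197730, 3, 8, [.p31 66561 0 1 [0], .p31 32769 0 1 [0, 2]],
 [false, true, false, true, true, true, true, true, true],
 [0x24, 1]⟩

theorem t2_3_1 : c2_3_1.chk true E = true := by decide +kernel

noncomputable def c2_2_2 : Crt := ⟨198722, 5, 10, [.p211 66592 0 0 [1] [2], .p211 33792 0 0 [1] [1, 2], .p211 32800 0 0 [2] [1, 2], .an 165953 0 0 [1, 2, 1, 2, 0]],
 [false, false, false, false, true, true, true, true, true, true, true, true, true, true, true],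
 [0x702, 0x901, 0x209, 0x444]⟩

theorem t2_2_2 : c2_2_2.chk true E = true := by decide +kernel

noncomputable def c2_1_3 : Crt := ⟨199714, 3, 4, [.p31 65569 0 2 [0], .p31 32769 0 2 [0, 1]],
 [false, true, false, true, true, true, true, true, true],
 [0x24, 8]⟩

theorem t2_1_3 : c2_1_3.chk true E = true := by decide +kernel

noncomputable def c2_0_4 : Crt := ⟨200706, 0, 0, [],
 [true],
 []⟩

theorem t2_0_4 : c2_0_4.chk true E = true := by decide +kernel

noncomputable def c1_4_1 : Crt := ⟨197761, 0, 3, [.p1 66561 0 1],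
 [false, true, true],
 [4]⟩

theorem t1_4_1 : c1_4_1.chk true E = true := by decide +kernel

noncomputable def c1_3_2 : Crt := ⟨198753, 1, 6, [.p31 66561 0 1 [2], .p31 33792 0 1 [0, 2]],
 [false, true, false, true, true, true, true, true, true],
 [0x1c, 0x20]⟩

theorem t1_3_2 : c1_3_2.chk true E = true := by decide +kernel

noncomputable def c1_2_3 : Crt := ⟨199745, 1, 4, [.p31 65569 0 2 [1], .p31 32800 0 2 [0, 1]],
 [false, true, true, false, true, true, true, true, true],
 [0xa, 8]⟩

theorem t1_2_3 : c1_2_3.chk true E = true := by decide +kernel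

noncomputable def c1_1_4 : Crt := ⟨200737, 0, 0, [.p1 65569 0 2],
 [true, true, false],
 [1]⟩

theorem t1_1_4 : c1_1_4.chk true E = true := by decide +kernel

noncomputable def c0_4_2 : Crt := ⟨198784, 0, 1, [],
 [true],
 []⟩

theorem t0_4_2 : c0_4_2.chk true E = true := by decide +kernel

noncomputable def c0_3_3 : Crt := ⟨199776, 0, 1, [],
 [true, true],
 []⟩

theorem t0_3_3 : c0_3_3.chk true E = true := by decide +kernel

noncomputable def c0_2_4 : Crt := ⟨200768, 0, 0, [],
 [true],
 []⟩

theorem t0_2_4 : c0_2_4.chk true E = true := by decide +kernel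

noncomputable def c4_3_0 : Crt := ⟨229476, 1, 1, [.cu 131169 0],
 [false],
 [2]⟩

theorem t4_3_0 : c4_3_0.chk true E = true := by decide +kernel

noncomputable def c4_2_1 : Crt := ⟨230468, 2, 2, [.cu 132161 0, .p31 99361 0 0 [1]],
 [false, false],
 [4, 0x1b]⟩

theorem t4_2_1 : c4_2_1.chk true E = true := by decide +kernel

noncomputable def c4_1_2 : Crt := ⟨231460, 2, 2, [.cu 133153 0, .p31 100353 0 0 [1]],
 [false, false],
 [0x21, 0x1b]⟩

theorem t4_1_2 : c4_1_2.chk true E = true := by decide +kernel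

noncomputable def c4_0_3 : Crt := ⟨232452, 1, 1, [.cu 134145 0],
 [false],
 [2]⟩

theorem t4_0_3 : c4_0_3.chk true E = true := by decide +kernel

noncomputable def c3_4_0 : Crt := ⟨229507, 1, 2, [.p31 98338 0 1 [0]],
 [false, true],
 [1]⟩

theorem t3_4_0 : c3_4_0.chk true E = true := by decide +kernel

noncomputable def c3_3_1 : Crt := ⟨230499, 7, 9, [.cu 132192 0, .p31 99392 0 0 [1], .p31 99330 0 1 [0], .p211 98369 0 0 [1] [2], .p31 32800 0 0 [1, 1, 2], .p31 32769 0 1 [0, 0, 2]],
 [false, false, false, false, false, false, true, true, true, true],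
 [0xc00a, 0x106c2, 0x1c442, 0x200, 0x1b848, 0x114e0]⟩

theorem t3_3_1 : c3_3_1.chk true E = true := by decide +kernel

noncomputable def c3_2_2 : Crt := ⟨231491, 11, 13, [.cu 133184 0, .p31 100384 0 0 [1], .p31 99392 0 0 [2], .p211 100353 0 0 [1] [1], .p211 99361 0 0 [1] [2], .p211 98369 0 0 [2] [2], .p31 66592 0 0 [1, 2], .p31 33792 0 0 [1, 1, 2], .p31 32800 0 0 [2, 1, 2], .p211 33792 0 0 [1] [2, 0, 1]],
 [false, false, false, false, false, false, false, false, false, false, true, true, true, true, true],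
 [0x18532da, 0x840c683, 0x1882460, 0x22804403, 0x10718100, 0x1420b020, 0x4318893, 0x20410e3, 0x1c64b608, 0x1861c008]⟩

theorem t3_2_2 : c3_2_2.chk true E = true := by decide +kernel

noncomputable def c3_1_3 : Crt := ⟨232483, 7, 8, [.cu 134176 0, .p31 100384 0 0 [2], .p31 98338 0 2 [0], .p211 100353 0 0 [1] [2], .p31 33792 0 0 [2, 1, 2], .p31 32769 0 2 [0, 0, 1]],
 [false, false, false, false, false, true, false, true, true, true],
 [0x144e3, 0x12860, 0x3213, 0x1c4c8, 0x1345b, 0x200]⟩

theorem t3_1_3 : c3_1_3.chk true E = true := by decide +kernel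

noncomputable def c3_0_4 : Crt := ⟨233475, 1, 1, [.p31 99330 0 2 [0]],
 [false, true],
 [1]⟩

theorem t3_0_4 : c3_0_4.chk true E = true := by decide +kernel

noncomputable def c2_5_0 : Crt := ⟨229538, 0, 1, [.p1 98338 0 1],
 [false],
 [1]⟩

theorem t2_5_0 : c2_5_0.chk true E = true := by decide +kernel

noncomputable def c2_4_1 : Crt := ⟨230530, 2, 9, [.p1 99330 0 1, .p31 99361 1 1 [0], .p31 98338 0 1 [2], .p31 33792 0 1 [0, 0, 1]],
 [false, false, true, true, true, false, false, true, true, true],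
 [0x8c2, 0x45b, 0x200, 8]⟩

theorem t2_4_1 : c2_4_1.chk true E = true := by decide +kernel

noncomputable def c2_3_2 : Crt := ⟨231522, 7, 18, [.p31 100353 0 1 [0], .p31 99330 0 1 [2], .p211 100384 0 0 [1] [1], .p211 99392 0 0 [1] [2], .p211 98338 0 1 [2] [2], .p31 66561 0 1 [0, 2], .p31 33792 0 1 [0, 0, 2], .p31 32769 0 1 [2, 0, 2], .p211 33792 0 0 [1] [1, 1, 2]],
 [false, false, false, false, false, false, false, true, true, false, true, true, false, true, true, true, true, true, true, true, true, true, true, true, true],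
 [0x4048a4, 0x40010c9, 0x485b894, 0x48a3281, 0x3402081, 0x22028cc, 0x202020, 0x200000, 0x3000]⟩

theorem t2_3_2 : c2_3_2.chk true E = true := by decide +kernel

noncomputable def c2_2_3 : Crt := ⟨232514, 7, 14, [.p31 98369 0 2 [0], .p31 98338 0 2 [1], .p211 100384 0 0 [1] [2], .p211 99392 0 0 [2] [2], .p211 100353 0 1 [0] [2], .p31 65569 0 2 [0, 1], .p31 32800 0 2 [0, 0, 1], .p31 32769 0 2 [1, 0, 1], .p211 33792 0 0 [1] [2, 1, 2]],
 [false, false, false, false, false, false, false, true, false, true, true, true, true, false, true, true, true, true, true, true, true, true, true, true, true],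
 [0x10dc8e3, 0x191c092, 0x2920883, 0x291c0da, 0x1641258, 0x2451893, 0x1000000, 0x125c000, 0x200000]⟩

theorem t2_2_3 : c2_2_3.chk true E = true := by decide +kernel

noncomputable def c2_1_4 : Crt := ⟨233506, 2, 3, [.p1 98338 0 2, .p31 99361 0 2 [0], .p31 99330 0 2 [1], .p31 32800 0 2 [0, 0, 2]],
 [false, false, false, true, true, true, true, true, true, false],
 [0x8c2, 0x440, 8, 0x200]⟩

theorem t2_1_4 : c2_1_4.chk true E = true := by decide +kernel

noncomputable def c2_0_5 : Crt := ⟨234498, 0, 0, [.p1 99330 0 2],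
 [false],
 [1]⟩

theorem t2_0_5 : c2_0_5.chk true E = true := by decide +kernel

noncomputable def c1_5_1 : Crt := ⟨230561, 0, 2, [.p1 99361 1 1],
 [false, true],
 [4]⟩

theorem t1_5_1 : c1_5_1.chk true E = true := by decide +kernel

noncomputable def c1_4_2 : Crt := ⟨231553, 1, 8, [.p1 100353 0 1, .p31 100384 0 1 [0], .p31 99361 1 1 [2], .p31 33792 0 1 [2, 0, 1]],
 [false, false, false, true, false, true, true, true, true, true],
 [0x9a, 0x689, 0x2e4, 0x20]⟩

theorem t1_4_2 : c1_4_2.chk true E = true := by decide +kernel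

noncomputable def c1_3_3 : Crt := ⟨232545, 2, 9, [.p31 100353 0 1 [2], .p31 98369 0 2 [1], .p211 100384 0 1 [0] [2], .p31 33792 0 1 [2, 0, 2], .p31 32800 0 2 [1, 0, 1]],
 [false, false, false, false, true, true, true, true, false, true, true, true, true, true, true, true],
 [0x4910, 0x1891, 0x4289, 0x4000, 0x200]⟩

theorem t1_3_3 : c1_3_3.chk true E = true := by decide +kernel

noncomputable def c1_2_4 : Crt := ⟨233537, 1, 3, [.p1 98369 0 2, .p31 99392 0 2 [0], .p31 99361 0 2 [1], .p31 32800 0 2 [1, 0, 2]],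
 [false, false, false, true, true, true, true, true, true, false],
 [0x840, 0x49c, 8, 0x200]⟩

theorem t1_2_4 : c1_2_4.chk true E = true := by decide +kernel

noncomputable def c1_1_5 : Crt := ⟨234529, 0, 0, [.p1 99361 0 2],
 [true, false],
 [1]⟩

theorem t1_1_5 : c1_1_5.chk true E = true := by decide +kernel

noncomputable def c0_5_2 : Crt := ⟨231584, 0, 1, [.p1 100384 0 1],
 [false],
 [3]⟩

theorem t0_5_2 : c0_5_2.chk true E = true := by decide +kernel

noncomputable def c0_4_3 : Crt := ⟨232576, 0, 2, [.p31 100384 0 1 [2]],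
 [false, true, true],
 [4]⟩

theorem t0_4_3 : c0_4_3.chk true E = true := by decide +kernel

noncomputable def c0_3_4 : Crt := ⟨233568, 0, 1, [.p31 99392 0 2 [1]],
 [false, true, true],
 [1]⟩

theorem t0_3_4 : c0_3_4.chk true E = true := by decide +kernel

noncomputable def c0_2_5 : Crt := ⟨234560, 0, 0, [.p1 99392 0 2],
 [false],
 [1]⟩

theorem t0_2_5 : c0_2_5.chk true E = true := by decide +kernel

noncomputable def c4_4_0 : Crt := ⟨262276, 1, 1, [.an 229507 0 0 [1, 0, 1, 1, 0, 1, 0]],
 [false],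
 [1]⟩

theorem t4_4_0 : c4_4_0.chk true E = true := by decide +kernel

noncomputable def c4_3_1 : Crt := ⟨263268, 4, 4, [.cu 164961 0, .p31 132161 0 0 [1], .p31 132161 1 0 [1], .an 230499 1 0 [1, 0, 1, 1, 0, 2, 0]],
 [false, false, false, false],
 [0x414, 0x609, 0x2d9, 0x811]⟩

theorem t4_3_1 : c4_3_1.chk true E = true := by decide +kernel

noncomputable def c4_2_2 : Crt := ⟨264260, 5, 5, [.cu 165953 0, .p31 133153 0 0 [1], .p31 133153 1 0 [1], .p31 132161 0 0 [2], .an 231491 1 0 [1, 0, 2, 1, 0, 2, 0]],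
 [false, false, false, false, false],
 [0x169c, 0x1499, 0x6c1, 0x51, 0x4419]⟩

theorem t4_2_2 : c4_2_2.chk true E = true := by decide +kernel

noncomputable def c4_1_3 : Crt := ⟨265252, 4, 4, [.cu 166945 0, .p31 134145 0 0 [1], .p31 133153 0 0 [2], .an 232483 1 0 [1, 0, 2, 2, 0, 2, 0]],
 [false, false, false, false],
 [0x324, 0x241, 0x891, 0x4c1]⟩

theorem t4_1_3 : c4_1_3.chk true E = true := by decide +kernel

noncomputable def c4_0_4 : Crt := ⟨266244, 1, 1, [.an 233475 0 0 [2, 0, 2, 2, 0, 2, 0]],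
 [false],
 [1]⟩

theorem t4_0_4 : c4_0_4.chk true E = true := by decide +kernel

noncomputable def c3_5_0 : Crt := ⟨262307, 0, 1, [],
 [true],
 []⟩

theorem t3_5_0 : c3_5_0.chk true E = true := by decide +kernel

noncomputable def c3_4_1 : Crt := ⟨263299, 6, 10, [.p31 132192 0 0 [1], .p31 132130 0 1 [0], .p31 132130 2 1 [0], .p31 98338 0 1 [0, 2], .p31 66561 0 1 [0, 0, 1], .an 230530 0 0 [1, 0, 1, 2, 1, 1, 0]],
 [false, false, false, false, false, false, true, true, true, true, true],
 [0x32d3, 0x130c9, 0x1000, 0x106d9, 0x18254, 0x40]⟩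

theorem t3_4_1 : c3_4_1.chk true E = true := by decide +kernel

noncomputable def c3_3_2 : Crt := ⟨264291, 16, 21, [.cu 165984 0, .p31 133184 0 0 [1], .p31 132192 0 0 [2], .p31 133122 0 1 [0], .p211 133153 1 0 [1] [1], .p211 132161 0 0 [1] [2], .p211 132161 1 0 [1] [2], .p31 99392 0 0 [1, 2], .p31 99330 0 1 [0, 2], .p211 98369 0 0 [2] [1, 2], .p31 66592 0 0 [1, 1, 2], .p31 66561 0 1 [0, 0, 2], .an 231522 0 0 [1, 0, 2, 2, 1, 1, 0], .an 231522 1 0 [1, 1, 0, 2, 2, 1, 0]],
 [false, false, false, false, false, false, false, false, false, false, false, false, false, false, true, true, true, true, true, true, true, true, true, true, true],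
 [0x19319318312, 0x3118d9684, 0x14899061314, 0x84c0050914, 0x22099088409, 0x216a005425a, 0x20640110259, 0xc62345345b, 0x1021200000, 0x1188108971b, 0x9281001060, 0x246148e0604, 0x8000, 0x220649000]⟩

theorem t3_3_2 : c3_3_2.chk true E = true := by decide +kernel

noncomputable def c3_2_3 : Crt := ⟨265283, 16, 20, [.cu 166976 0, .p31 134176 0 0 [1], .p31 133184 0 0 [2], .p31 131138 0 2 [0], .p211 134145 0 0 [1] [1], .p211 133153 0 0 [1] [2], .p211 133153 1 0 [1] [2], .p31 100384 0 0 [1, 2], .p31 98338 0 2 [0, 1], .p211 100353 0 0 [1] [1, 2], .p31 66592 0 0 [2, 1, 2], .p31 65569 0 2 [0, 0, 1], .an 232514 0 0 [1, 0, 2, 2, 1, 2, 0], .an 232514 2 0 [1, 2, 1, 2, 0, 2, 0]],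
 [false, false, false, false, false, false, false, false, false, false, false, false, true, true, false, false, true, true, true, true, true, true, true, true, true],
 [0x1a0c9089709, 0x236db01b64c, 0x120d24da49c, 0x1088301b924, 0xc2a2651200, 0x1265100170b, 0xc0022104c0, 0x92a160a200, 0x190cb812249, 0x218e451c800, 0x1a0400c8492, 0x124590492e2, 0x130c00986db, 0x40000000]⟩

theorem t3_2_3 : c3_2_3.chk true E = true := by decide +kernel

noncomputable def c3_1_4 : Crt := ⟨266275, 6, 7, [.p31 134176 0 0 [2], .p31 132130 0 2 [0], .p31 132130 1 2 [0], .p31 99330 0 2 [0, 1], .p31 65569 0 2 [0, 0, 2], .an 233506 0 0 [2, 0, 2, 2, 1, 2, 0]],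
 [false, false, false, false, false, false, true, true, true, true, true],
 [0x24718, 0x1021c, 0x4018, 0x18711, 0x1000, 0x200]⟩

theorem t3_1_4 : c3_1_4.chk true E = true := by decide +kernel

noncomputable def c3_0_5 : Crt := ⟨267267, 0, 0, [],
 [true],
 []⟩

theorem t3_0_5 : c3_0_5.chk true E = true := by decide +kernel

noncomputable def c2_5_1 : Crt := ⟨263330, 1, 7, [.p1 132130 0 1, .p1 132130 2 1, .p31 132161 2 1 [0]],
 [false, true, true, false, false, true, true],
 [0x9c, 0x40, 0x20]⟩

theorem t2_5_1 : c2_5_1.chk true E = true := by decide +kernel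

noncomputable def c2_4_2 : Crt := ⟨264322, 6, 22, [.p1 133122 0 1, .p31 133153 1 1 [0], .p31 133153 2 1 [0], .p31 132130 0 1 [2], .p31 132130 2 1 [2], .p211 132192 0 0 [1] [2], .p31 99361 1 1 [0, 2], .p31 66561 0 1 [2, 0, 1], .an 231553 0 0 [1, 1, 2, 1, 2, 1, 0], .an 231553 1 0 [1, 2, 1, 1, 2, 1, 0]],
 [false, false, false, false, false, false, true, true, false, false, false, true, true, true, false, true, true, true, true, true, true, true, true, true, true, true, true, true],
 [0x20c4653, 0x391131a, 0x2181a6d1, 0x88c8864, 0x104cb488, 0x1c04001a, 0x40000, 0x20000000, 0x44536a2, 0x20000]⟩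

theorem t2_4_2 : c2_4_2.chk true E = true := by decide +kernel

noncomputable def c2_3_3 : Crt := ⟨265314, 11, 27, [.p31 134145 0 1 [0], .p31 133122 0 1 [2], .p31 131169 0 2 [0], .p31 131138 0 2 [1], .p211 134176 0 0 [1] [1], .p211 133184 0 0 [1] [2], .p211 132192 0 0 [2] [2], .p211 133153 1 1 [0] [2], .p31 100353 0 1 [0, 2], .p31 98369 0 2 [0, 1], .p211 100384 0 0 [1] [1, 2], .p31 66561 0 1 [2, 0, 2], .p31 65569 0 2 [1, 0, 1], .an 232545 0 0 [1, 2, 1, 2, 1, 2, 0], .an 232545 2 0 [1, 2, 2, 1, 1, 2, 0]],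
 [false, false, false, false, false, false, false, false, false, false, false, true, false, true, false, false, true, true, true, true, true, true, true, true, true, true, false, true, true, true, true, true, true, true, true, true, true, true, true, true, true, true, true],
 [0x4051b11c410, 0x8c2a00548d2, 0x9b2c209c65b, 0x5301128160b, 0x5b8610a4423, 0x842502212a2, 0x40024501090, 0x92148db50a, 0x22cb653062, 0x2301928a663, 0x1000000000, 0xa01124d8498, 0x620e4800000, 0x20000000000, 0x200000000]⟩

theorem t2_3_3 : c2_3_3.chk true E = true := by decide +kernel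

noncomputable def c2_2_4 : Crt := ⟨266306, 6, 12, [.p1 131138 0 2, .p31 132161 0 2 [0], .p31 132161 1 2 [0], .p31 132130 0 2 [1], .p31 132130 1 2 [1], .p211 134176 0 0 [1] [2], .p31 99361 0 2 [0, 1], .p31 65569 0 2 [1, 0, 2], .an 233537 0 0 [2, 1, 2, 1, 2, 2, 0], .an 233537 1 0 [2, 1, 2, 2, 1, 2, 0]],
 [false, false, false, false, false, false, false, true, true, true, false, false, true, true, true, true, true, true, true, true, true, true, true, true, true, true, true, false],
 [0x190d820b, 0x1b2db4c9, 0x22432c8, 0x20900040, 0x1000000, 0x8200000, 0x94e1851, 0x40000, 0x8000, 0x8000000]⟩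

theorem t2_2_4 : c2_2_4.chk true E = true := by decide +kernel

noncomputable def c2_1_5 : Crt := ⟨267298, 1, 1, [.p1 132130 0 2, .p1 132130 1 2, .p31 133153 0 2 [0]],
 [false, true, true, true, true, false, false],
 [0x99, 0x40, 8]⟩

theorem t2_1_5 : c2_1_5.chk true E = true := by decide +kernel

noncomputable def c1_6_1 : Crt := ⟨263361, 0, 1, [.p1 132161 2 1],
 [false],
 [4]⟩

theorem t1_6_1 : c1_6_1.chk true E = true := by decide +kernel

noncomputable def c1_5_2 : Crt := ⟨264353, 0, 6, [.p1 133153 1 1, .p1 133153 2 1, .p31 132161 2 1 [2]],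
 [false, false, true, false, true, true, true],
 [0x108, 0x58, 4]⟩

theorem t1_5_2 : c1_5_2.chk true E = true := by decide +kernel

noncomputable def c1_4_3 : Crt := ⟨265345, 2, 13, [.p1 134145 0 1, .p31 134176 0 1 [0], .p31 133153 1 1 [2], .p31 133153 2 1 [2], .p31 131169 0 2 [1], .p31 100384 0 1 [0, 2], .p31 66561 0 1 [2, 1, 2], .an 232576 0 0 [1, 2, 2, 1, 1, 2, 1]],
 [false, false, false, false, false, false, false, true, true, true, true, true, false, true, true, true, true, true, true],
 [0x223221, 0x301051, 0x6da062, 0x421010, 0x20200, 0x4000, 0x8e2652, 0x200]⟩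

theorem t1_4_3 : c1_4_3.chk true E = true := by decide +kernel

noncomputable def c1_3_4 : Crt := ⟨266337, 2, 8, [.p1 131169 0 2, .p31 134145 0 1 [2], .p31 132192 0 2 [0], .p31 132161 0 2 [1], .p31 132161 1 2 [1], .p31 99392 0 2 [0, 1], .p31 65569 0 2 [1, 1, 2], .an 233568 0 0 [2, 1, 2, 2, 1, 2, 1]],
 [false, false, false, false, true, false, false, false, true, true, true, true, true, true, true, true, true, true, false],
 [0x6c2209, 0x608000, 0x618849, 0x298241, 0x400818, 0x201000, 0x200, 0x200000]⟩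

theorem t1_3_4 : c1_3_4.chk true E = true := by decide +kernel

noncomputable def c1_2_5 : Crt := ⟨267329, 0, 1, [.p1 132161 0 2, .p1 132161 1 2, .p31 133153 0 2 [1]],
 [false, true, true, true, true, false, false],
 [1, 0x40, 8]⟩

theorem t1_2_5 : c1_2_5.chk true E = true := by decide +kernel

noncomputable def c1_1_6 : Crt := ⟨268321, 0, 0, [.p1 133153 0 2],
 [false],
 [1]⟩

theorem t1_1_6 : c1_1_6.chk true E = true := by decide +kernel

noncomputable def c0_5_3 : Crt := ⟨265376, 0, 2, [.p1 134176 0 1],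
 [false, true],
 [1]⟩

theorem t0_5_3 : c0_5_3.chk true E = true := by decide +kernel

noncomputable def c0_4_4 : Crt := ⟨266368, 0, 2, [.p31 134176 0 1 [2], .an 233568 0 1 [2, 1, 2, 2, 1, 2, 1]],
 [false, false, true, true],
 [0x21, 8]⟩

theorem t0_4_4 : c0_4_4.chk true E = true := by decide +kernel

noncomputable def c0_3_5 : Crt := ⟨267360, 0, 0, [.p1 132192 0 2],
 [true, false],
 [1]⟩

theorem t0_3_5 : c0_3_5.chk true E = true := by decide +kernel

noncomputable def c4_5_0 : Crt := ⟨295076, 1, 1, [.p31 98338 0 1 [0, 0, 1]],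
 [false],
 [3]⟩

theorem t4_5_0 : c4_5_0.chk true E = true := by decide +kernel

noncomputable def c4_4_1 : Crt := ⟨296068, 5, 5, [.cu 197761 0, .p31 164961 0 0 [1], .p31 164961 1 0 [1], .p31 99330 0 1 [0, 0, 1], .p31 98338 0 1 [0, 0, 2]],
 [false, false, false, false, false],
 [0x365c, 0x18, 0x460a, 0x40d8, 0x32ca]⟩

theorem t4_4_1 : c4_4_1.chk true E = true := by decide +kernel

noncomputable def c4_3_2 : Crt := ⟨297060, 11, 11, [.cu 198753 0, .cu 198753 1, .cu 198753 2, .p31 165953 0 0 [1], .p31 165953 1 0 [1], .p31 165953 2 0 [1], .p31 165953 3 0 [1], .p31 164961 0 0 [2], .p211 165922 2 0 [1] [1], .p31 99330 0 1 [0, 0, 2], .p211 100353 0 0 [1] [1, 0, 1]],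
 [false, false, false, false, false, false, false, false, false, false, false],
 [0x910124da, 0x5a64284c, 0x58700049, 0x11b283711, 0x41441224, 0x1124c403, 0x22219311, 0x4b903410, 0x22482911, 0x88903224, 0x64804311]⟩

theorem t4_3_2 : c4_3_2.chk true E = true := by decide +kernel

noncomputable def c4_2_3 : Crt := ⟨298052, 11, 11, [.cu 199745 0, .cu 199745 1, .cu 199745 2, .p31 166945 0 0 [1], .p31 166945 1 0 [1], .p31 165953 0 0 [2], .p31 165953 1 0 [2], .p31 165953 2 0 [2], .p211 165922 2 0 [1] [2], .p31 98338 0 2 [0, 0, 1], .p211 99361 0 0 [1] [2, 0, 2]],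
 [false, false, false, false, false, false, false, false, false, false, false],
 [0x5c4cc0cc, 0xe169c8a1, 0xe38cc11c, 0x19692691, 0x428d9664, 0x2245a091, 0x640cc102, 0xd1848691, 0x10b493883, 0x41721064, 0x8a8da091]⟩

theorem t4_2_3 : c4_2_3.chk true E = true := by decide +kernel

noncomputable def c4_1_4 : Crt := ⟨299044, 5, 5, [.cu 200737 0, .p31 166945 0 0 [2], .p31 166945 1 0 [2], .p31 99330 0 2 [0, 0, 1], .p31 98338 0 2 [0, 0, 2]],
 [false, false, false, false, false],
 [0x3651, 0x44c2, 0x4603, 0x40d1, 3]⟩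

theorem t4_1_4 : c4_1_4.chk true E = true := by decide +kernel

noncomputable def c4_0_5 : Crt := ⟨300036, 1, 1, [.p31 99330 0 2 [0, 0, 2]],
 [false],
 [3]⟩

theorem t4_0_5 : c4_0_5.chk true E = true := by decide +kernel

noncomputable def c3_6_0 : Crt := ⟨295107, 0, 1, [],
 [true],
 []⟩

theorem t3_6_0 : c3_6_0.chk true E = true := by decide +kernel

noncomputable def c3_5_1 : Crt := ⟨296099, 4, 9, [.p31 164930 0 1 [0], .p31 164930 4 1 [0], .p31 99361 1 1 [0, 0, 1], .p31 98338 0 1 [2, 0, 1]],
 [false, false, false, false, true, true, true, true, true, true],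
 [0x12, 0x200, 0x101, 4]⟩

theorem t3_5_1 : c3_5_1.chk true E = true := by decide +kernel

noncomputable def c3_4_2 : Crt := ⟨297091, 18, 29, [.cu 198784 0, .p31 165984 0 0 [1], .p31 165922 0 1 [0], .p31 165922 2 1 [0], .p31 165922 3 1 [0], .p31 165922 4 1 [0], .p211 165953 2 0 [1] [1], .p211 164961 0 0 [1] [2], .p211 164961 1 0 [1] [2], .p31 132192 0 0 [1, 2], .p31 132130 0 1 [0, 2], .p31 132130 2 1 [0, 2], .p31 99392 0 0 [1, 1, 2], .p31 100353 0 1 [0, 0, 1], .p31 99330 0 1 [2, 0, 1], .p31 99361 1 1 [0, 0, 2], .p31 98338 0 1 [2, 0, 2], .p211 100384 0 0 [1] [1, 0, 1], .p211 98369 0 0 [1] [2, 1, 2], .p211 99392 0 0 [2] [1, 0, 1], .an 264322 0 0 [1, 1, 0, 2, 2, 1, 1, 0]],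
 [false, false, false, false, false, false, false, false, false, false, false, false, false, false, false, false, false, false, false, false, false, true, true, true, true, true, true, true, true, true, true, true, true, true],
 [0x168348885b864008, 0x371a2914220a0113, 0x14828206a171a501, 0x4000000040000, 0x14010448c4688060, 0x270c6026a0103054, 0x125985148851208a, 0x252230b2c100a413, 0x1661800024481882, 0x282882910653683, 0x46a25022e22c4862, 0x31222e40040022a0, 0x17224ca8e389809b, 0x18d482169869309b, 0x6a20240102638d1, 0x320444269c81c0d9, 0x719284013302309, 0x31c01b0e0498662, 0x22504844e30508cb, 0x20c36120a35110ca, 0x38d3400012303441]⟩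

theorem t3_4_2 : c3_4_2.chk true E = true := by decide +kernel

noncomputable def c3_3_3 : Crt := ⟨298083, 28, 39, [.cu 199776 0, .cu 199776 1, .p31 166976 0 0 [1], .p31 165984 0 0 [2], .p31 166914 0 1 [0], .p31 163938 0 2 [0], .p211 166945 0 0 [1] [1], .p211 165953 0 0 [1] [2], .p211 165953 1 0 [1] [2], .p211 165953 2 0 [1] [2], .p211 165953 3 0 [1] [2], .p211 164961 0 0 [2] [2], .p211 165922 2 1 [0] [2], .p31 133184 0 0 [1, 2], .p31 133122 0 1 [0, 2], .p31 131138 0 2 [0, 1], .p211 133153 1 0 [1] [1, 2], .p31 100384 0 0 [1, 1, 2], .p31 99392 0 0 [2, 1, 2], .p31 100353 0 1 [0, 0, 2], .p31 99330 0 1 [2, 0, 2], .p31 98369 0 2 [0, 0, 1], .p31 98338 0 2 [1, 0, 1], .p211 100384 0 0 [1] [2, 0, 1], .p211 99392 0 0 [1] [2, 0, 2], .p211 100353 0 0 [1] [1, 1, 2], .p211 99361 0 0 [1] [2, 1, 2], .p211 100384 0 0 [2] [1, 0, 1], .an 265314 0 0 [1, 1, 0, 2, 2, 1, 2, 0]],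
 [false, false, false, false, false, false, false, false, false, false, false, false, false, false, false, false, false, false, false, false, false, false, false, true, false, false, true, false, false, false, false, true, true, true, true, true, true, true, true, true, true, true, true, true, true, true, true, true, true, true],
 [0x14544809204ca823618004, 0x169a8a22c12938500940c8, 0x46d211c7224ca25c50964c, 0x8c26412948913196d8703, 0x43108086014c441050944b, 0x24c010182050c8846c291b, 0x18580c311912302164210a, 0x38448d346011020b200840, 0x288c5006004c39094d1088, 0x204206401130886252448a, 0x441401164111041a920800, 0x230129a708050822840300, 0x29241126c211829149a254, 0x348c258004493883312400, 0x251321950425250a69c711, 0x35232a14c969a6098e3609, 0x185921c513308814400064, 0x36843213200938da11951c, 0x40432106110886c2481099, 0x16181119080d04124006c0, 0x800000020000000000, 0x349330c853914250812650, 0x14dc2832d10c850861290a, 0x252145841464305271c722, 0x229c91b0db0488219002c0, 0x200000000000000000, 0x48481086391245969830c,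 0x20251c8094d204421871a, 0x344a2218100580db261899]⟩

theorem t3_3_3 : c3_3_3.chk true E = true := by decide +kernel

end Pool.Agent.Y50.FE.CC
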