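import Pool.Agent.Y50.FE.CC.Dat

/-! Checks of components. -/

set_option autoImplicit false
set_option maxRecDepth 100000

namespace Pool.Agent.Y50.FE.CC

noncomputable def c3_3_6 : Crt := ⟨399459, 8, 10, [.cu 301152 0, .p1 264291 0 2, .p1 264291 1 2, .p1 264291 2 2, .p1 264291 3 2, .p1 264291 4 2, .p1 264291 5 2, .p31 267360 0 0 [2], .p31 265314 0 2 [0], .p31 265314 1 2 [0], .p31 265314 2 2 [0], .p31 265314 3 2 [0], .p31 265314 4 2 [0], .p31 265314 5 2 [0], .p31 265314 7 2 [0], .p31 265283 0 2 [1], .p31 265283 1 2 [1], .p31 232514 0 2 [0, 1], .p31 232514 1 2 [0, 1]],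
 [false, false, false, false, false, false, false, false, false, false, false, false, false, false, false, false, false, false, false],
 [0xe26da010100000, 0x4b2ca01144a711, 0x8129c45a518693, 0x1226da92151b418, 0x17125024920c2, 0xc20181c842220, 0x11280190b0e3044, 0x100111243862610, 0x1a6cb25941200a, 0x21091254613010, 0x1222d091c71b2a3, 0x586db91145a418, 0xc30110100c0000, 0x1000000000000, 0x200000000000, 0x40000000000, 0x8000000000, 0x1000000000, 0x19612000000000]⟩

theorem t3_3_6 : c3_3_6.chk true E = true := by decide +kernel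

noncomputable def c3_2_7 : Crt := ⟨400451, 0, 0, [.p1 265283 0 2, .p1 265283 1 2],
 [false, false],
 [0xa, 0x10]⟩

theorem t3_2_7 : c3_2_7.chk true E = true := by decide +kernel

noncomputable def c2_7_3 : Crt := ⟨396514, 0, 8, [.p1 265314 12 1, .p1 265314 13 1, .p1 265314 14 1, .p1 265314 15 1, .p1 265314 16 1, .p1 265314 17 1, .p1 265314 18 1, .p1 265314 20 1],
 [false, false, false, false, false, false, false, false],
 [0x453853, 0x2638c2, 0x501301, 0x1311, 0x20c319, 0x112689, 0xd369c, 0x2e3854]⟩

theorem t2_7_3 : c2_7_3.chk true E = true := by decide +kernel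

noncomputable def c2_6_4 : Crt := ⟨397506, 4, 27, [.p1 266306 3 1, .p1 266306 4 1, .p1 266306 5 1, .p1 266306 6 1, .p1 266306 7 1, .p1 266306 8 1, .p1 266306 9 1, .p1 266306 10 1, .p1 266306 11 1, .p1 266306 12 1, .p1 266306 14 1, .p31 266337 1 1 [0], .p31 266337 2 1 [0], .p31 266337 3 1 [0], .p31 266337 4 1 [0], .p31 265314 12 1 [2], .p31 265314 13 1 [2], .p31 265314 14 1 [2], .p31 265314 15 1 [2], .p31 265314 16 1 [2], .p31 265314 17 1 [2], .p31 265314 18 1 [2], .p31 265314 20 1 [2], .p31 232545 4 1 [0, 2], .p31 232545 5 1 [0, 2], .p31 232545 6 1 [0, 2], .p31 200768 0 1 [0, 0, 1], .p31 199745 3 1 [2, 0, 1]],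
 [false, false, false, false, false, false, false, false, false, false, false, false, false, false, false, false, false, false, false, false, false, true, false, false, false, false, false, false, false, true, true, true, true, true, true],
 [0x32170009430b50264144a, 0x30c1000d902321b8da8ca, 0x8cc5228e165b2506c00d9, 0x6d08492c1318122859611, 0x30804948b4116d9864310, 0x4606e36c40080938098a3, 0x8e48222c92e28804a410b, 0x2512a165a51a0da6a2100, 0x48a28c710481458103708, 0x69c6202e468b049918250, 0x5140a200048361a623708, 0x81b05241929285c2c94d4, 0x2902db48a4902cc4c471c, 0x2d20a00106c072345a460, 0x31262110285951c2506c8, 0x9126c8448802098462651, 0x442d291b3136e18e04a0, 0x46082060371b6182c3643, 0x85311a2524918a02d471c, 0x8524e380b80c8d02144cc, 0x4da44c098004081848000, 0x408026541098e34c3818, 0x84a880054660122248054, 0x5046433100034a3458000, 0x112292618002293458000, 0x20b6dc05800144b408000, 0x60301510241848054898, 0x48368401150b0c1640119]⟩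

theorem t2_6_4 : c2_6_4.chk true E = true := by decide +kernel

noncomputable def c2_5_5 : Crt := ⟨398498, 9, 32, [.p1 267298 0 1, .p1 267298 1 1, .p1 267298 2 1, .p1 267298 3 1, .p1 263330 0 2, .p1 263330 1 2, .p1 263330 2 2, .p1 263330 3 2, .p31 267329 0 1 [0], .p31 267329 1 1 [0], .p31 267329 2 1 [0], .p31 266306 3 1 [2], .p31 266306 4 1 [2], .p31 266306 5 1 [2], .p31 266306 6 1 [2], .p31 266306 7 1 [2], .p31 266306 8 1 [2], .p31 266306 9 1 [2], .p31 266306 10 1 [2], .p31 266306 11 1 [2], .p31 266306 12 1 [2], .p31 266306 14 1 [2], .p31 264353 0 2 [0], .p31 264353 1 2 [0], .p31 264353 2 2 [0], .p31 264322 0 2 [1], .p31 264322 1 2 [1], .p31 264322 2 2 [1], .p31 264322 3 2 [1], .p211 267360 0 0 [1] [1], .p211 266368 0 0 [1] [2], .p31 233537 0 1 [0, 2], .p31 233537 1 1 [0, 2], .p31 233537 2 1 [0, 2], .p31 233537 3 1 [0, 2], .p31 231553 0 2 [0, 1], .p31 231553 2 2 [0, 1], .p211 233568 0 0 [1] [1, 2], .p31 200737 0 1 [2, 0, 1], .p31 200737 1 1 [2, 0, 1], .p31 200768 0 1 [0, 0, 2], .p31 199745 2 1 [2, 0, 2],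 .p31 199745 4 1 [2, 0, 2]],
 [false, false, false, false, false, false, false, false, false, false, false, false, false, false, false, true, false, false, false, false, false, false, false, false, false, false, false, false, false, false, false, false, false, false, false, false, false, false, false, true, true, true, true, false, true, true, true, true, true, true, true, false, false, false, false],
 [0x344a05a51311900928964b85c299040, 0x1188da71264328048b2940216d9010302, 0xdb71b09309902404b613861523658814, 0xd049271491b8181117214e14e4050909, 0x814400c89128098940a3042803412092, 0x1870202120b01084146248051b4046e1, 0x940c911868b20c28c8536c9404214041, 0x8349c2432ca08b68c2e080a41b004620, 0xd06206d405c8242c811a6d10108590e2, 0xa344971108105c6480d19198894228e4, 0x972330a9048a37132826524044820d4, 0x2084b4100da8ca681483712624218694, 0x522c984460925a0dc8c22038546e4609, 0xd28a22230220518608c80cb701260623, 0xc6c42986d111a4488602d240364b203, 0xd90a190080010410169b65031b62344b, 0xa00d48030c081a89145085c911503023, 0xdc89c2528042db7030c94a361c704860,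 0x22ca66464a82029a0094e0419904883, 0xc489120b0436931234536c0260649094, 0x12360c0d064c4a44e3843648901320313, 0x5848a4a22424816204cb042461122419, 0x824d80916816e18946124244042236c9, 0x4170148300128c45b24390c81a853840, 0x110c4c28892dc0910832c4220440683, 0xdb1204d26d885026424a2000904546cb, 0x528a30e280101a81b003842221858204, 0x10a44b1132244cc3010ca9121092d4123, 0x1c4e03246a242350b281260452044124, 0x8449c69a29350a62008c0e0848304059, 0xcc0e26a38ca02400b6e18d4124821824, 0x1082db2e1711223820859819881710602, 0x1106a46c010a82302484c723063904613, 0xdc90851306284431c7004e26223188e1, 0x2151c4e29224586a16602928528a1102, 0xd906212080c04904b24130945b51c513, 0x9c91b6d33028528c80d0508320841114, 0x9410949141964b4646949042c06126a3, 0x834434ca2c13180c249969904920c209, 0x40000000000000000000000000000, 0x8000000000000000000000000000, 0x1000000000000000000000000000, 0x200000000000000000000000000]⟩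

theorem t2_5_5 : c2_5_5.chk true E = true := by decide +kernel

noncomputable def c2_4_6 : Crt := ⟨399490, 4, 12, [.p1 264322 0 2, .p1 264322 1 2, .p1 264322 2 2, .p1 264322 3 2, .p1 264322 4 2, .p1 264322 5 2, .p1 264322 6 2, .p1 264322 7 2, .p1 264322 8 2, .p1 264322 9 2, .p1 264322 11 2, .p31 267298 0 1 [2], .p31 267298 1 1 [2], .p31 267298 2 1 [2], .p31 267298 3 1 [2], .p31 265345 0 2 [0], .p31 265345 1 2 [0], .p31 265345 2 2 [0], .p31 265345 3 2 [0], .p31 265314 0 2 [1], .p31 265314 1 2 [1], .p31 265314 3 2 [1], .p31 265314 4 2 [1], .p31 234529 0 1 [0, 2], .p31 232545 0 2 [0, 1], .p31 232545 1 2 [0, 1], .p31 200737 0 1 [2, 0, 2], .p31 200737 1 1 [2, 0, 2]],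
 [false, false, false, false, false, false, false, false, false, false, false, false, false, false, false, true, false, false, true, true, true, true, true, true, false, false, false, false, false, false, false, false, false, false, false],
 [0x65b5234515028d2064210, 0x932536d26d24cb45c094, 0x480b6c484c0106d9042, 0x65805b05471b2608494a3, 0x82144a8e364a40a2d1261, 0x9205a6880541004dc60b, 0xc14d871a4a269029c6a4, 0x880924912449291684051, 0x2e13084426c805800b4a4, 0x9b05b09888b0238530c4, 0x25108b05b4e10d2660290, 0x2486a44c1261863252422, 0x2c22a28c14194092d2103, 0x6200d8902860710093511, 0x48a0580da45b4d2311211, 0x10c2520a02900880d991b, 0x1a60a48924131385868c, 0x40000000000000000000, 0x8000000000000000000, 0x1000000000000000000, 0x200000000000000000, 0x40000000000000000, 0x8000000000000000, 0x1000000000000000, 0x200000000000000, 0x40000000000000, 0x7028124c0000000000000, 0x8000000000000]⟩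

theorem t2_4_6 : c2_4_6.chk true E = true := by decide +kernel

noncomputable def c2_3_7 : Crt := ⟨400482, 0, 0, [.p1 265314 0 2, .p1 265314 1 2, .p1 265314 2 2, .p1 265314 3 2, .p1 265314 4 2, .p1 265314 5 2, .p1 265314 6 2, .p1 265314 7 2],
 [false, false, false, false, false, false, false, false],
 [0x200, 0x40, 8, 1, 0x6ca10c, 0x902019, 0x4480d2, 0xa1484]⟩

theorem t2_3_7 : c2_3_7.chk true E = true := by decide +kernel

noncomputable def c1_7_4 : Crt := ⟨397537, 0, 4, [.p1 266337 1 1, .p1 266337 2 1, .p1 266337 3 1, .p1 266337 4 1],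
 [false, false, false, false],
 [0x864, 0x8a4, 0x31c, 0x200]⟩

theorem t1_7_4 : c1_7_4.chk true E = true := by decide +kernel

noncomputable def c1_6_5 : Crt := ⟨398529, 1, 10, [.p1 267329 0 1, .p1 267329 1 1, .p1 267329 2 1, .p31 267360 0 1 [0], .p31 266337 1 1 [2], .p31 266337 2 1 [2], .p31 266337 3 1 [2], .p31 266337 4 1 [2], .p31 233568 0 1 [0, 2], .p31 200768 0 1 [2, 0, 1]],
 [false, false, false, false, true, false, false, false, false, false, false, true, true, true],
 [0x10448618, 0x132d1810, 0x2863093, 0x19453020, 0x460b240, 0x134544a0, 0x236db719, 0x11003280, 0x2512ca, 0x22709123]⟩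

theorem t1_6_5 : c1_6_5.chk true E = true := by decide +kernel

noncomputable def c1_5_6 : Crt := ⟨399521, 1, 5, [.p1 264353 0 2, .p1 264353 1 2, .p1 264353 2 2, .p31 267329 0 1 [2], .p31 267329 1 1 [2], .p31 267329 2 1 [2], .p31 265376 0 2 [0], .p31 265345 3 2 [1], .p31 232576 0 2 [0, 1], .p31 200768 0 1 [2, 0, 2]],
 [false, false, false, false, false, false, true, false, true, true, true, false, false, false],
 [0x23248d3, 0x13891, 0xc051842, 0x11400040, 0x9850464, 0x2263722, 0x2031181b, 0x8000000, 0x1000000, 0x200000]⟩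

theorem t1_5_6 : c1_5_6.chk true E = true := by decide +kernel

noncomputable def c1_4_7 : Crt := ⟨400513, 0, 0, [.p1 265345 0 2, .p1 265345 1 2, .p1 265345 2 2, .p1 265345 3 2],
 [false, false, false, false],
 [0x200, 8, 1, 0x101]⟩

theorem t1_4_7 : c1_4_7.chk true E = true := by decide +kernel

noncomputable def c0_7_5 : Crt := ⟨398560, 0, 1, [.p1 267360 0 1],
 [false],
 [4]⟩

theorem t0_7_5 : c0_7_5.chk true E = true := by decide +kernel

noncomputable def c0_6_6 : Crt := ⟨399552, 0, 1, [.p31 267360 0 1 [2]],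
 [false, true],
 [2]⟩

theorem t0_6_6 : c0_6_6.chk true E = true := by decide +kernel

noncomputable def c0_5_7 : Crt := ⟨400544, 0, 0, [.p1 265376 0 2],
 [false],
 [1]⟩

theorem t0_5_7 : c0_5_7.chk true E = true := by decide +kernel

noncomputable def c4_5_4 : Crt := ⟨430244, 1, 1, [.cu 331937 0],
 [false],
 [4]⟩

theorem t4_5_4 : c4_5_4.chk true E = true := by decide +kernel

noncomputable def c4_4_5 : Crt := ⟨431236, 1, 1, [.cu 332929 2],
 [false],
 [2]⟩

theorem t4_4_5 : c4_4_5.chk true E = true := by decide +kernel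

noncomputable def c3_6_4 : Crt := ⟨430275, 7, 8, [.cu 331968 0, .p1 299075 3 1, .p31 299168 0 0 [1], .p31 299168 1 0 [1], .p31 299106 6 1 [0], .p31 299106 7 1 [0], .p31 299106 8 1 [0], .p31 299106 9 1 [0]],
 [false, false, false, false, false, false, false, false],
 [0x44b0db, 0x223719, 0x5222d3, 0x8a00d0, 0x201240, 0x849899, 0x11c724, 0xc0000]⟩

theorem t3_6_4 : c3_6_4.chk true E = true := by decide +kernel

noncomputable def c3_5_5 : Crt := ⟨431267, 12, 13, [.cu 332960 0, .p31 300160 0 0 [1], .p31 300160 1 0 [1], .p31 299168 0 0 [2], .p31 300098 1 1 [0], .p31 300098 2 1 [0], .p31 300098 3 1 [0], .p31 300098 4 1 [0], .p31 300098 5 1 [0], .p31 300098 6 1 [0], .p31 300098 7 1 [0], .p31 299075 3 1 [2], .p31 297122 0 2 [0]],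
 [false, false, false, false, false, false, false, false, false, false, false, false, false, true],
 [0x289428c65a, 0x18048c8684, 0x34e071c402, 0x20028e280b, 0x2462404051, 0x2c908a809, 0x880624243, 0x44390a044, 0x8dc504302, 0x1c69a0db, 0xd010305a, 0x4a284a48a, 0x20]⟩

theorem t3_5_5 : c3_5_5.chk true E = true := by decide +kernel

noncomputable def c3_4_6 : Crt := ⟨432259, 7, 7, [.cu 333952 0, .p1 297091 0 2, .p31 301152 0 0 [1], .p31 300160 1 0 [2], .p31 301090 0 1 [0], .p31 301090 1 1 [0], .p31 298114 0 2 [0], .p31 298114 1 2 [0]],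
 [false, false, false, false, false, false, false, false],
 [0x100001, 0x8e3918, 0x253508, 0x861808, 0xe120b, 0x22109b, 0x48623, 0x40000]⟩

theorem t3_4_6 : c3_4_6.chk true E = true := by decide +kernel

noncomputable def c2_7_4 : Crt := ⟨430306, 0, 7, [.p1 299106 6 1, .p1 299106 7 1, .p1 299106 8 1, .p1 299106 9 1, .p1 299106 10 1, .p1 299106 11 1, .p1 299106 18 1],
 [false, false, false, false, false, false, false],
 [0xa0254, 0x810da, 0x502c3, 0x982e0, 0x588a0, 0xe0449, 0x5089c]⟩

theorem t2_7_4 : c2_7_4.chk true E = true := by decide +kernel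

noncomputable def c2_6_5 : Crt := ⟨431298, 4, 16, [.p1 300098 1 1, .p1 300098 2 1, .p1 300098 3 1, .p1 300098 4 1, .p1 300098 5 1, .p1 300098 6 1, .p1 300098 7 1, .p1 296130 0 2, .p1 296130 1 2, .p31 300129 1 1 [0], .p31 300129 2 1 [0], .p31 300129 3 1 [0], .p31 300129 4 1 [0], .p31 299106 6 1 [2], .p31 299106 7 1 [2], .p31 299106 8 1 [2], .p31 299106 9 1 [2], .p31 299106 10 1 [2], .p31 266337 2 1 [0, 2], .p31 233537 1 1 [2, 0, 1]],
 [false, false, false, false, false, false, false, false, false, false, false, false, false, false, false, false, false, true, true, false, true, false, false],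
 [0x84b8c020304b4d9, 0x62202499318813, 0x4646615189196d0, 0x2925126cb8848cc, 0x11972270c2a441a, 0x66165a0e0242243, 0x6e32244dc811499, 0x45371189a6096e1, 0xd88e441b288909, 0x30a2a4812840264, 0x6c922191069c0c4, 0x512683488862102, 0x11188a09a6e2921, 0x46369049a694521, 0x4c81b25844a441, 0x40c4d430c21c11a, 0x85270b2a305364b, 0x60b6522d340448c, 0x1000000000, 0x200000000]⟩

theorem t2_6_5 : c2_6_5.chk true E = true := by decide +kernel

noncomputable def c2_5_6 : Crt := ⟨432290, 4, 11, [.p1 301090 0 1, .p1 301090 1 1, .p1 297122 0 2, .p1 297122 1 2, .p1 297122 2 2, .p1 297122 3 2, .p1 297122 4 2, .p1 297122 5 2, .p1 297122 6 2, .p31 301121 0 1 [0], .p31 301121 1 1 [0], .p31 300098 1 1 [2], .p31 300098 2 1 [2], .p31 300098 3 1 [2], .p31 300098 4 1 [2], .p31 298145 0 2 [0], .p31 298145 1 2 [0], .p31 298114 1 2 [1], .p31 267329 0 1 [0, 2], .p31 233537 0 1 [2, 0, 2]],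
 [false, false, false, false, false, false, false, false, false, false, false, false, true, false, true, true, false, false, false, false, false, false, false],
 [0x4db31920806100c, 0x2a4861919614254, 0x121201c72290b, 0x8544444db6da89c, 0x11a8a041461b303, 0x94703413723303, 0x8446a281411c6cb, 0x69a322824243311, 0xd965a8030500c0, 0x913649401620080, 0x11850c00804a81c, 0x860824010098013, 0x60405a61b311462, 0x200000000000, 0x40000000000, 0x8000000000, 0x1000000000, 0x200000000, 0xa303600000000, 0x122d1800000000]⟩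

theorem t2_5_6 : c2_5_6.chk true E = true := by decide +kernel

noncomputable def c2_4_7 : Crt := ⟨433282, 0, 0, [.p1 298114 0 2, .p1 298114 1 2, .p1 298114 2 2, .p1 298114 3 2, .p1 298114 4 2, .p1 298114 5 2, .p1 298114 7 2],
 [false, false, false, false, false, false, false],
 [0x8000, 0x101259, 0x8441b, 0x44304, 0xc2701, 0x448c2, 0x448c1]⟩

theorem t2_4_7 : c2_4_7.chk true E = true := by decide +kernel

noncomputable def c1_7_5 : Crt := ⟨431329, 0, 4, [.p1 300129 1 1, .p1 300129 2 1, .p1 300129 3 1, .p1 300129 4 1],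
 [false, false, false, false],
 [0x4a1, 0x302, 0x2e1, 0x102]⟩

theorem t1_7_5 : c1_7_5.chk true E = true := by decide +kernel

noncomputable def c1_6_6 : Crt := ⟨432321, 1, 5, [.p1 301121 0 1, .p1 301121 1 1, .p1 297153 0 2, .p1 297153 1 2, .p31 301152 0 1 [0], .p31 300129 1 1 [2], .p31 300129 2 1 [2], .p31 267360 0 1 [0, 2], .p31 233568 0 1 [2, 0, 2]],
 [false, false, false, false, false, false, false, false, false],
 [0x228c503, 0x190a320, 0x4cc914, 0x43411, 0x3400000, 0x4724802, 0x4b611, 0x40000, 0x8000]⟩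

theorem t1_6_6 : c1_6_6.chk true E = true := by decide +kernel

noncomputable def c1_5_7 : Crt := ⟨433313, 0, 0, [.p1 298145 0 2, .p1 298145 1 2, .p1 298145 2 2, .p1 298145 3 2],
 [false, false, false, false],
 [0x200, 1, 0xd4, 0xcc]⟩

theorem t1_5_7 : c1_5_7.chk true E = true := by decide +kernel

noncomputable def c0_7_6 : Crt := ⟨432352, 0, 1, [.p1 301152 0 1],
 [false],
 [3]⟩

theorem t0_7_6 : c0_7_6.chk true E = true := by decide +kernel

noncomputable def c0_6_7 : Crt := ⟨433344, 0, 0, [.p1 298176 0 2],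
 [false],
 [1]⟩

theorem t0_6_7 : c0_6_7.chk true E = true := by decide +kernel

noncomputable def c4_5_5 : Crt := ⟨464036, 1, 1, [.cu 365729 2],
 [false],
 [4]⟩

theorem t4_5_5 : c4_5_5.chk true E = true := by decide +kernel

noncomputable def c3_6_5 : Crt := ⟨464067, 3, 4, [.p31 332960 0 0 [1], .p31 332898 1 1 [0], .p31 332898 3 1 [0]],
 [false, false, false, true],
 [0x10c, 0x88, 0x80]⟩

theorem t3_6_5 : c3_6_5.chk true E = true := by decide +kernel

noncomputable def c3_5_6 : Crt := ⟨465059, 3, 3, [.p31 333952 0 0 [1], .p31 330914 0 2 [0], .p31 330914 1 2 [0]],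
 [false, false, false, true],
 [0x60, 0xe4, 0x8c]⟩

theorem t3_5_6 : c3_5_6.chk true E = true := by decide +kernel

noncomputable def c2_7_5 : Crt := ⟨464098, 0, 3, [.p1 332898 1 1, .p1 332898 2 1, .p1 332898 3 1],
 [false, false, false],
 [0xcc, 0x98, 0x58]⟩

theorem t2_7_5 : c2_7_5.chk true E = true := by decide +kernel

noncomputable def c2_6_6 : Crt := ⟨465090, 0, 3, [.p1 333890 0 1, .p1 329922 1 2, .p31 332898 1 1 [2], .p31 332898 3 1 [2]],
 [false, false, false, true, true, false],
 [0x310, 0x261, 0xc1, 0x80]⟩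

theorem t2_6_6 : c2_6_6.chk true E = true := by decide +kernel

noncomputable def c2_5_7 : Crt := ⟨466082, 0, 0, [.p1 330914 0 2, .p1 330914 1 2, .p1 330914 2 2],
 [false, false, false],
 [0x10c, 0x112, 0x4b]⟩

theorem t2_5_7 : c2_5_7.chk true E = true := by decide +kernel

noncomputable def c4_6_5 : Crt := ⟨496836, 1, 1, [.cu 398529 1],
 [false],
 [2]⟩

theorem t4_6_5 : c4_6_5.chk true E = true := by decide +kernel

noncomputable def c4_5_6 : Crt := ⟨497828, 1, 1, [.cu 399521 1],
 [false],
 [2]⟩

theorem t4_5_6 : c4_5_6.chk true E = true := by decide +kernel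

noncomputable def c3_7_5 : Crt := ⟨496867, 0, 1, [.p1 365667 2 1],
 [false],
 [3]⟩

theorem t3_7_5 : c3_7_5.chk true E = true := by decide +kernel

noncomputable def c3_6_6 : Crt := ⟨497859, 2, 3, [.p31 366690 0 1 [0], .p31 366690 1 1 [0], .p31 365667 2 1 [2], .p31 332898 1 1 [0, 2]],
 [false, false, false, false],
 [0x84a, 0x19, 0x59, 0x104]⟩

theorem t3_6_6 : c3_6_6.chk true E = true := by decide +kernel

noncomputable def c3_5_7 : Crt := ⟨498851, 0, 0, [.p1 363683 0 2],
 [false],
 [4]⟩

theorem t3_5_7 : c3_5_7.chk true E = true := by decide +kernel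

noncomputable def c2_7_6 : Crt := ⟨497890, 0, 2, [.p1 366690 0 1, .p1 366690 1 1],
 [false, false],
 [0x24, 4]⟩

theorem t2_7_6 : c2_7_6.chk true E = true := by decide +kernel

noncomputable def c2_6_7 : Crt := ⟨498882, 0, 0, [.p1 363714 0 2, .p1 363714 1 2],
 [false, false],
 [3, 0x23]⟩

theorem t2_6_7 : c2_6_7.chk true E = true := by decide +kernel

end Pool.Agent.Y50.FE.CC
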