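import Pool.Agent.Y50.FE.Tab
import Pool.Agent.Y50.FE.CC.K00
import Pool.Agent.Y50.FE.CC.K01
import Pool.Agent.Y50.FE.CC.K02
import Pool.Agent.Y50.FE.CC.K03
import Pool.Agent.Y50.FE.CC.K04
import Pool.Agent.Y50.FE.CC.K05
import Pool.Agent.Y50.FE.CC.K06

/-! Assembly. -/

set_option autoImplicit false
set_option maxRecDepth 100000

namespace Pool.Agent.Y50.FE.CC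

universe u

theorem k32769 : PK true tr.get 32769 := ⟨⟨rfl, c2_0_0, rfl, t2_0_0⟩, ⟨rfl, c1_1_0, rfl, t1_1_0⟩, ⟨rfl, c1_0_1, rfl, t1_0_1⟩⟩
theorem k32800 : PK true tr.get 32800 := ⟨⟨rfl, c1_1_0, rfl, t1_1_0⟩, ⟨rfl, c0_2_0, rfl, t0_2_0⟩, ⟨rfl, c0_1_1, rfl, t0_1_1⟩⟩
theorem k33792 : PK true tr.get 33792 := ⟨⟨rfl, c1_0_1, rfl, t1_0_1⟩, ⟨rfl, c0_1_1, rfl, t0_1_1⟩, ⟨rfl, c0_0_2, rfl, t0_0_2⟩⟩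
theorem k65569 : PK true tr.get 65569 := ⟨⟨rfl, c2_1_0, rfl, t2_1_0⟩, ⟨rfl, c1_2_0, rfl, t1_2_0⟩, ⟨rfl, c1_1_1, rfl, t1_1_1⟩⟩
theorem k66561 : PK true tr.get 66561 := ⟨⟨rfl, c2_0_1, rfl, t2_0_1⟩, ⟨rfl, c1_1_1, rfl, t1_1_1⟩, ⟨rfl, c1_0_2, rfl, t1_0_2⟩⟩
theorem k66592 : PK true tr.get 66592 := ⟨⟨rfl, c1_1_1, rfl, t1_1_1⟩, ⟨rfl, c0_2_1, rfl, t0_2_1⟩, ⟨rfl, c0_1_2, rfl, t0_1_2⟩⟩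
theorem k98338 : PK true tr.get 98338 := ⟨⟨rfl, c3_1_0, rfl, t3_1_0⟩, ⟨rfl, c2_2_0, rfl, t2_2_0⟩, ⟨rfl, c2_1_1, rfl, t2_1_1⟩⟩
theorem k98369 : PK true tr.get 98369 := ⟨⟨rfl, c2_2_0, rfl, t2_2_0⟩, ⟨rfl, c1_3_0, rfl, t1_3_0⟩, ⟨rfl, c1_2_1, rfl, t1_2_1⟩⟩
theorem k99330 : PK true tr.get 99330 := ⟨⟨rfl, c3_0_1, rfl, t3_0_1⟩, ⟨rfl, c2_1_1, rfl, t2_1_1⟩, ⟨rfl, c2_0_2, rfl, t2_0_2⟩⟩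
theorem k99361 : PK true tr.get 99361 := ⟨⟨rfl, c2_1_1, rfl, t2_1_1⟩, ⟨rfl, c1_2_1, rfl, t1_2_1⟩, ⟨rfl, c1_1_2, rfl, t1_1_2⟩⟩
theorem k99392 : PK true tr.get 99392 := ⟨⟨rfl, c1_2_1, rfl, t1_2_1⟩, ⟨rfl, c0_3_1, rfl, t0_3_1⟩, ⟨rfl, c0_2_2, rfl, t0_2_2⟩⟩
theorem k100353 : PK true tr.get 100353 := ⟨⟨rfl, c2_0_2, rfl, t2_0_2⟩, ⟨rfl, c1_1_2, rfl, t1_1_2⟩, ⟨rfl, c1_0_3, rfl, t1_0_3⟩⟩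
theorem k100384 : PK true tr.get 100384 := ⟨⟨rfl, c1_1_2, rfl, t1_1_2⟩, ⟨rfl, c0_2_2, rfl, t0_2_2⟩, ⟨rfl, c0_1_3, rfl, t0_1_3⟩⟩
theorem k131138 : PK true tr.get 131138 := ⟨⟨rfl, c3_2_0, rfl, t3_2_0⟩, ⟨rfl, c2_3_0, rfl, t2_3_0⟩, ⟨rfl, c2_2_1, rfl, t2_2_1⟩⟩
theorem k131169 : PK true tr.get 131169 := ⟨⟨rfl, c2_3_0, rfl, t2_3_0⟩, ⟨rfl, c1_4_0, rfl, t1_4_0⟩, ⟨rfl, c1_3_1, rfl, t1_3_1⟩⟩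
theorem k132130 : PK true tr.get 132130 := ⟨⟨rfl, c3_1_1, rfl, t3_1_1⟩, ⟨rfl, c2_2_1, rfl, t2_2_1⟩, ⟨rfl, c2_1_2, rfl, t2_1_2⟩⟩
theorem k132161 : PK true tr.get 132161 := ⟨⟨rfl, c2_2_1, rfl, t2_2_1⟩, ⟨rfl, c1_3_1, rfl, t1_3_1⟩, ⟨rfl, c1_2_2, rfl, t1_2_2⟩⟩
theorem k132192 : PK true tr.get 132192 := ⟨⟨rfl, c1_3_1, rfl, t1_3_1⟩, ⟨rfl, c0_4_1, rfl, t0_4_1⟩, ⟨rfl, c0_3_2, rfl, t0_3_2⟩⟩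
theorem k133122 : PK true tr.get 133122 := ⟨⟨rfl, c3_0_2, rfl, t3_0_2⟩, ⟨rfl, c2_1_2, rfl, t2_1_2⟩, ⟨rfl, c2_0_3, rfl, t2_0_3⟩⟩
theorem k133153 : PK true tr.get 133153 := ⟨⟨rfl, c2_1_2, rfl, t2_1_2⟩, ⟨rfl, c1_2_2, rfl, t1_2_2⟩, ⟨rfl, c1_1_3, rfl, t1_1_3⟩⟩
theorem k133184 : PK true tr.get 133184 := ⟨⟨rfl, c1_2_2, rfl, t1_2_2⟩, ⟨rfl, c0_3_2, rfl, t0_3_2⟩, ⟨rfl, c0_2_3, rfl, t0_2_3⟩⟩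
theorem k134145 : PK true tr.get 134145 := ⟨⟨rfl, c2_0_3, rfl, t2_0_3⟩, ⟨rfl, c1_1_3, rfl, t1_1_3⟩, ⟨rfl, c1_0_4, rfl, t1_0_4⟩⟩
theorem k134176 : PK true tr.get 134176 := ⟨⟨rfl, c1_1_3, rfl, t1_1_3⟩, ⟨rfl, c0_2_3, rfl, t0_2_3⟩, ⟨rfl, c0_1_4, rfl, t0_1_4⟩⟩
theorem k163938 : PK true tr.get 163938 := ⟨⟨rfl, c3_3_0, rfl, t3_3_0⟩, ⟨rfl, c2_4_0, rfl, t2_4_0⟩, ⟨rfl, c2_3_1, rfl, t2_3_1⟩⟩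
theorem k164930 : PK true tr.get 164930 := ⟨⟨rfl, c3_2_1, rfl, t3_2_1⟩, ⟨rfl, c2_3_1, rfl, t2_3_1⟩, ⟨rfl, c2_2_2, rfl, t2_2_2⟩⟩
theorem k164961 : PK true tr.get 164961 := ⟨⟨rfl, c2_3_1, rfl, t2_3_1⟩, ⟨rfl, c1_4_1, rfl, t1_4_1⟩, ⟨rfl, c1_3_2, rfl, t1_3_2⟩⟩
theorem k165922 : PK true tr.get 165922 := ⟨⟨rfl, c3_1_2, rfl, t3_1_2⟩, ⟨rfl, c2_2_2, rfl, t2_2_2⟩, ⟨rfl, c2_1_3, rfl, t2_1_3⟩⟩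
theorem k165953 : PK true tr.get 165953 := ⟨⟨rfl, c2_2_2, rfl, t2_2_2⟩, ⟨rfl, c1_3_2, rfl, t1_3_2⟩, ⟨rfl, c1_2_3, rfl, t1_2_3⟩⟩
theorem k165984 : PK true tr.get 165984 := ⟨⟨rfl, c1_3_2, rfl, t1_3_2⟩, ⟨rfl, c0_4_2, rfl, t0_4_2⟩, ⟨rfl, c0_3_3, rfl, t0_3_3⟩⟩
theorem k166914 : PK true tr.get 166914 := ⟨⟨rfl, c3_0_3, rfl, t3_0_3⟩, ⟨rfl, c2_1_3, rfl, t2_1_3⟩, ⟨rfl, c2_0_4, rfl, t2_0_4⟩⟩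
theorem k166945 : PK true tr.get 166945 := ⟨⟨rfl, c2_1_3, rfl, t2_1_3⟩, ⟨rfl, c1_2_3, rfl, t1_2_3⟩, ⟨rfl, c1_1_4, rfl, t1_1_4⟩⟩
theorem k166976 : PK true tr.get 166976 := ⟨⟨rfl, c1_2_3, rfl, t1_2_3⟩, ⟨rfl, c0_3_3, rfl, t0_3_3⟩, ⟨rfl, c0_2_4, rfl, t0_2_4⟩⟩
theorem k196707 : PK true tr.get 196707 := ⟨⟨rfl, c4_3_0, rfl, t4_3_0⟩, ⟨rfl, c3_4_0, rfl, t3_4_0⟩, ⟨rfl, c3_3_1, rfl, t3_3_1⟩⟩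
theorem k196738 : PK true tr.get 196738 := ⟨⟨rfl, c3_4_0, rfl, t3_4_0⟩, ⟨rfl, c2_5_0, rfl, t2_5_0⟩, ⟨rfl, c2_4_1, rfl, t2_4_1⟩⟩
theorem k197699 : PK true tr.get 197699 := ⟨⟨rfl, c4_2_1, rfl, t4_2_1⟩, ⟨rfl, c3_3_1, rfl, t3_3_1⟩, ⟨rfl, c3_2_2, rfl, t3_2_2⟩⟩
theorem k197730 : PK true tr.get 197730 := ⟨⟨rfl, c3_3_1, rfl, t3_3_1⟩, ⟨rfl, c2_4_1, rfl, t2_4_1⟩, ⟨rfl, c2_3_2, rfl, t2_3_2⟩⟩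
theorem k197761 : PK true tr.get 197761 := ⟨⟨rfl, c2_4_1, rfl, t2_4_1⟩, ⟨rfl, c1_5_1, rfl, t1_5_1⟩, ⟨rfl, c1_4_2, rfl, t1_4_2⟩⟩
theorem k198691 : PK true tr.get 198691 := ⟨⟨rfl, c4_1_2, rfl, t4_1_2⟩, ⟨rfl, c3_2_2, rfl, t3_2_2⟩, ⟨rfl, c3_1_3, rfl, t3_1_3⟩⟩
theorem k198722 : PK true tr.get 198722 := ⟨⟨rfl, c3_2_2, rfl, t3_2_2⟩, ⟨rfl, c2_3_2, rfl, t2_3_2⟩, ⟨rfl, c2_2_3, rfl, t2_2_3⟩⟩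
theorem k198753 : PK true tr.get 198753 := ⟨⟨rfl, c2_3_2, rfl, t2_3_2⟩, ⟨rfl, c1_4_2, rfl, t1_4_2⟩, ⟨rfl, c1_3_3, rfl, t1_3_3⟩⟩
theorem k198784 : PK true tr.get 198784 := ⟨⟨rfl, c1_4_2, rfl, t1_4_2⟩, ⟨rfl, c0_5_2, rfl, t0_5_2⟩, ⟨rfl, c0_4_3, rfl, t0_4_3⟩⟩
theorem k199683 : PK true tr.get 199683 := ⟨⟨rfl, c4_0_3, rfl, t4_0_3⟩, ⟨rfl, c3_1_3, rfl, t3_1_3⟩, ⟨rfl, c3_0_4, rfl, t3_0_4⟩⟩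
theorem k199714 : PK true tr.get 199714 := ⟨⟨rfl, c3_1_3, rfl, t3_1_3⟩, ⟨rfl, c2_2_3, rfl, t2_2_3⟩, ⟨rfl, c2_1_4, rfl, t2_1_4⟩⟩
theorem k199745 : PK true tr.get 199745 := ⟨⟨rfl, c2_2_3, rfl, t2_2_3⟩, ⟨rfl, c1_3_3, rfl, t1_3_3⟩, ⟨rfl, c1_2_4, rfl, t1_2_4⟩⟩
theorem k199776 : PK true tr.get 199776 := ⟨⟨rfl, c1_3_3, rfl, t1_3_3⟩, ⟨rfl, c0_4_3, rfl, t0_4_3⟩, ⟨rfl, c0_3_4, rfl, t0_3_4⟩⟩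
theorem k200706 : PK true tr.get 200706 := ⟨⟨rfl, c3_0_4, rfl, t3_0_4⟩, ⟨rfl, c2_1_4, rfl, t2_1_4⟩, ⟨rfl, c2_0_5, rfl, t2_0_5⟩⟩
theorem k200737 : PK true tr.get 200737 := ⟨⟨rfl, c2_1_4, rfl, t2_1_4⟩, ⟨rfl, c1_2_4, rfl, t1_2_4⟩, ⟨rfl, c1_1_5, rfl, t1_1_5⟩⟩
theorem k200768 : PK true tr.get 200768 := ⟨⟨rfl, c1_2_4, rfl, t1_2_4⟩, ⟨rfl, c0_3_4, rfl, t0_3_4⟩, ⟨rfl, c0_2_5, rfl, t0_2_5⟩⟩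
theorem k229507 : PK true tr.get 229507 := ⟨⟨rfl, c4_4_0, rfl, t4_4_0⟩, ⟨rfl, c3_5_0, rfl, t3_5_0⟩, ⟨rfl, c3_4_1, rfl, t3_4_1⟩⟩
theorem k230499 : PK true tr.get 230499 := ⟨⟨rfl, c4_3_1, rfl, t4_3_1⟩, ⟨rfl, c3_4_1, rfl, t3_4_1⟩, ⟨rfl, c3_3_2, rfl, t3_3_2⟩⟩
theorem k230530 : PK true tr.get 230530 := ⟨⟨rfl, c3_4_1, rfl, t3_4_1⟩, ⟨rfl, c2_5_1, rfl, t2_5_1⟩, ⟨rfl, c2_4_2, rfl, t2_4_2⟩⟩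
theorem k230561 : PK true tr.get 230561 := ⟨⟨rfl, c2_5_1, rfl, t2_5_1⟩, ⟨rfl, c1_6_1, rfl, t1_6_1⟩, ⟨rfl, c1_5_2, rfl, t1_5_2⟩⟩
theorem k231491 : PK true tr.get 231491 := ⟨⟨rfl, c4_2_2, rfl, t4_2_2⟩, ⟨rfl, c3_3_2, rfl, t3_3_2⟩, ⟨rfl, c3_2_3, rfl, t3_2_3⟩⟩
theorem k231522 : PK true tr.get 231522 := ⟨⟨rfl, c3_3_2, rfl, t3_3_2⟩, ⟨rfl, c2_4_2, rfl, t2_4_2⟩, ⟨rfl, c2_3_3, rfl, t2_3_3⟩⟩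
theorem k231553 : PK true tr.get 231553 := ⟨⟨rfl, c2_4_2, rfl, t2_4_2⟩, ⟨rfl, c1_5_2, rfl, t1_5_2⟩, ⟨rfl, c1_4_3, rfl, t1_4_3⟩⟩
theorem k232483 : PK true tr.get 232483 := ⟨⟨rfl, c4_1_3, rfl, t4_1_3⟩, ⟨rfl, c3_2_3, rfl, t3_2_3⟩, ⟨rfl, c3_1_4, rfl, t3_1_4⟩⟩
theorem k232514 : PK true tr.get 232514 := ⟨⟨rfl, c3_2_3, rfl, t3_2_3⟩, ⟨rfl, c2_3_3, rfl, t2_3_3⟩, ⟨rfl, c2_2_4, rfl, t2_2_4⟩⟩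
theorem k232545 : PK true tr.get 232545 := ⟨⟨rfl, c2_3_3, rfl, t2_3_3⟩, ⟨rfl, c1_4_3, rfl, t1_4_3⟩, ⟨rfl, c1_3_4, rfl, t1_3_4⟩⟩
theorem k232576 : PK true tr.get 232576 := ⟨⟨rfl, c1_4_3, rfl, t1_4_3⟩, ⟨rfl, c0_5_3, rfl, t0_5_3⟩, ⟨rfl, c0_4_4, rfl, t0_4_4⟩⟩
theorem k233475 : PK true tr.get 233475 := ⟨⟨rfl, c4_0_4, rfl, t4_0_4⟩, ⟨rfl, c3_1_4, rfl, t3_1_4⟩, ⟨rfl, c3_0_5, rfl, t3_0_5⟩⟩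
theorem k233506 : PK true tr.get 233506 := ⟨⟨rfl, c3_1_4, rfl, t3_1_4⟩, ⟨rfl, c2_2_4, rfl, t2_2_4⟩, ⟨rfl, c2_1_5, rfl, t2_1_5⟩⟩
theorem k233537 : PK true tr.get 233537 := ⟨⟨rfl, c2_2_4, rfl, t2_2_4⟩, ⟨rfl, c1_3_4, rfl, t1_3_4⟩, ⟨rfl, c1_2_5, rfl, t1_2_5⟩⟩
theorem k233568 : PK true tr.get 233568 := ⟨⟨rfl, c1_3_4, rfl, t1_3_4⟩, ⟨rfl, c0_4_4, rfl, t0_4_4⟩, ⟨rfl, c0_3_5, rfl, t0_3_5⟩⟩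
theorem k234529 : PK true tr.get 234529 := ⟨⟨rfl, c2_1_5, rfl, t2_1_5⟩, ⟨rfl, c1_2_5, rfl, t1_2_5⟩, ⟨rfl, c1_1_6, rfl, t1_1_6⟩⟩
theorem k262307 : PK true tr.get 262307 := ⟨⟨rfl, c4_5_0, rfl, t4_5_0⟩, ⟨rfl, c3_6_0, rfl, t3_6_0⟩, ⟨rfl, c3_5_1, rfl, t3_5_1⟩⟩
theorem k263299 : PK true tr.get 263299 := ⟨⟨rfl, c4_4_1, rfl, t4_4_1⟩, ⟨rfl, c3_5_1, rfl, t3_5_1⟩, ⟨rfl, c3_4_2, rfl, t3_4_2⟩⟩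
theorem k263330 : PK true tr.get 263330 := ⟨⟨rfl, c3_5_1, rfl, t3_5_1⟩, ⟨rfl, c2_6_1, rfl, t2_6_1⟩, ⟨rfl, c2_5_2, rfl, t2_5_2⟩⟩
theorem k264291 : PK true tr.get 264291 := ⟨⟨rfl, c4_3_2, rfl, t4_3_2⟩, ⟨rfl, c3_4_2, rfl, t3_4_2⟩, ⟨rfl, c3_3_3, rfl, t3_3_3⟩⟩
theorem k264322 : PK true tr.get 264322 := ⟨⟨rfl, c3_4_2, rfl, t3_4_2⟩, ⟨rfl, c2_5_2, rfl, t2_5_2⟩, ⟨rfl, c2_4_3, rfl, t2_4_3⟩⟩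
theorem k264353 : PK true tr.get 264353 := ⟨⟨rfl, c2_5_2, rfl, t2_5_2⟩, ⟨rfl, c1_6_2, rfl, t1_6_2⟩, ⟨rfl, c1_5_3, rfl, t1_5_3⟩⟩
theorem k265283 : PK true tr.get 265283 := ⟨⟨rfl, c4_2_3, rfl, t4_2_3⟩, ⟨rfl, c3_3_3, rfl, t3_3_3⟩, ⟨rfl, c3_2_4, rfl, t3_2_4⟩⟩
theorem k265314 : PK true tr.get 265314 := ⟨⟨rfl, c3_3_3, rfl, t3_3_3⟩, ⟨rfl, c2_4_3, rfl, t2_4_3⟩, ⟨rfl, c2_3_4, rfl, t2_3_4⟩⟩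
theorem k265345 : PK true tr.get 265345 := ⟨⟨rfl, c2_4_3, rfl, t2_4_3⟩, ⟨rfl, c1_5_3, rfl, t1_5_3⟩, ⟨rfl, c1_4_4, rfl, t1_4_4⟩⟩
theorem k265376 : PK true tr.get 265376 := ⟨⟨rfl, c1_5_3, rfl, t1_5_3⟩, ⟨rfl, c0_6_3, rfl, t0_6_3⟩, ⟨rfl, c0_5_4, rfl, t0_5_4⟩⟩
theorem k266275 : PK true tr.get 266275 := ⟨⟨rfl, c4_1_4, rfl, t4_1_4⟩, ⟨rfl, c3_2_4, rfl, t3_2_4⟩, ⟨rfl, c3_1_5, rfl, t3_1_5⟩⟩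
theorem k266306 : PK true tr.get 266306 := ⟨⟨rfl, c3_2_4, rfl, t3_2_4⟩, ⟨rfl, c2_3_4, rfl, t2_3_4⟩, ⟨rfl, c2_2_5, rfl, t2_2_5⟩⟩
theorem k266337 : PK true tr.get 266337 := ⟨⟨rfl, c2_3_4, rfl, t2_3_4⟩, ⟨rfl, c1_4_4, rfl, t1_4_4⟩, ⟨rfl, c1_3_5, rfl, t1_3_5⟩⟩
theorem k266368 : PK true tr.get 266368 := ⟨⟨rfl, c1_4_4, rfl, t1_4_4⟩, ⟨rfl, c0_5_4, rfl, t0_5_4⟩, ⟨rfl, c0_4_5, rfl, t0_4_5⟩⟩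
theorem k267267 : PK true tr.get 267267 := ⟨⟨rfl, c4_0_5, rfl, t4_0_5⟩, ⟨rfl, c3_1_5, rfl, t3_1_5⟩, ⟨rfl, c3_0_6, rfl, t3_0_6⟩⟩
theorem k267298 : PK true tr.get 267298 := ⟨⟨rfl, c3_1_5, rfl, t3_1_5⟩, ⟨rfl, c2_2_5, rfl, t2_2_5⟩, ⟨rfl, c2_1_6, rfl, t2_1_6⟩⟩
theorem k267329 : PK true tr.get 267329 := ⟨⟨rfl, c2_2_5, rfl, t2_2_5⟩, ⟨rfl, c1_3_5, rfl, t1_3_5⟩, ⟨rfl, c1_2_6, rfl, t1_2_6⟩⟩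
theorem k267360 : PK true tr.get 267360 := ⟨⟨rfl, c1_3_5, rfl, t1_3_5⟩, ⟨rfl, c0_4_5, rfl, t0_4_5⟩, ⟨rfl, c0_3_6, rfl, t0_3_6⟩⟩
theorem k295107 : PK true tr.get 295107 := ⟨⟨rfl, c4_6_0, rfl, t4_6_0⟩, ⟨rfl, c3_7_0, rfl, t3_7_0⟩, ⟨rfl, c3_6_1, rfl, t3_6_1⟩⟩
theorem k296099 : PK true tr.get 296099 := ⟨⟨rfl, c4_5_1, rfl, t4_5_1⟩, ⟨rfl, c3_6_1, rfl, t3_6_1⟩, ⟨rfl, c3_5_2, rfl, t3_5_2⟩⟩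
theorem k296130 : PK true tr.get 296130 := ⟨⟨rfl, c3_6_1, rfl, t3_6_1⟩, ⟨rfl, c2_7_1, rfl, t2_7_1⟩, ⟨rfl, c2_6_2, rfl, t2_6_2⟩⟩
theorem k297091 : PK true tr.get 297091 := ⟨⟨rfl, c4_4_2, rfl, t4_4_2⟩, ⟨rfl, c3_5_2, rfl, t3_5_2⟩, ⟨rfl, c3_4_3, rfl, t3_4_3⟩⟩
theorem k297122 : PK true tr.get 297122 := ⟨⟨rfl, c3_5_2, rfl, t3_5_2⟩, ⟨rfl, c2_6_2, rfl, t2_6_2⟩, ⟨rfl, c2_5_3, rfl, t2_5_3⟩⟩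
theorem k297153 : PK true tr.get 297153 := ⟨⟨rfl, c2_6_2, rfl, t2_6_2⟩, ⟨rfl, c1_7_2, rfl, t1_7_2⟩, ⟨rfl, c1_6_3, rfl, t1_6_3⟩⟩
theorem k298083 : PK true tr.get 298083 := ⟨⟨rfl, c4_3_3, rfl, t4_3_3⟩, ⟨rfl, c3_4_3, rfl, t3_4_3⟩, ⟨rfl, c3_3_4, rfl, t3_3_4⟩⟩
theorem k298114 : PK true tr.get 298114 := ⟨⟨rfl, c3_4_3, rfl, t3_4_3⟩, ⟨rfl, c2_5_3, rfl, t2_5_3⟩, ⟨rfl, c2_4_4, rfl, t2_4_4⟩⟩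
theorem k298145 : PK true tr.get 298145 := ⟨⟨rfl, c2_5_3, rfl, t2_5_3⟩, ⟨rfl, c1_6_3, rfl, t1_6_3⟩, ⟨rfl, c1_5_4, rfl, t1_5_4⟩⟩
theorem k298176 : PK true tr.get 298176 := ⟨⟨rfl, c1_6_3, rfl, t1_6_3⟩, ⟨rfl, c0_7_3, rfl, t0_7_3⟩, ⟨rfl, c0_6_4, rfl, t0_6_4⟩⟩
theorem k299075 : PK true tr.get 299075 := ⟨⟨rfl, c4_2_4, rfl, t4_2_4⟩, ⟨rfl, c3_3_4, rfl, t3_3_4⟩, ⟨rfl, c3_2_5, rfl, t3_2_5⟩⟩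
theorem k299106 : PK true tr.get 299106 := ⟨⟨rfl, c3_3_4, rfl, t3_3_4⟩, ⟨rfl, c2_4_4, rfl, t2_4_4⟩, ⟨rfl, c2_3_5, rfl, t2_3_5⟩⟩
theorem k299137 : PK true tr.get 299137 := ⟨⟨rfl, c2_4_4, rfl, t2_4_4⟩, ⟨rfl, c1_5_4, rfl, t1_5_4⟩, ⟨rfl, c1_4_5, rfl, t1_4_5⟩⟩
theorem k299168 : PK true tr.get 299168 := ⟨⟨rfl, c1_5_4, rfl, t1_5_4⟩, ⟨rfl, c0_6_4, rfl, t0_6_4⟩, ⟨rfl, c0_5_5, rfl, t0_5_5⟩⟩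
theorem k300067 : PK true tr.get 300067 := ⟨⟨rfl, c4_1_5, rfl, t4_1_5⟩, ⟨rfl, c3_2_5, rfl, t3_2_5⟩, ⟨rfl, c3_1_6, rfl, t3_1_6⟩⟩
theorem k300098 : PK true tr.get 300098 := ⟨⟨rfl, c3_2_5, rfl, t3_2_5⟩, ⟨rfl, c2_3_5, rfl, t2_3_5⟩, ⟨rfl, c2_2_6, rfl, t2_2_6⟩⟩
theorem k300129 : PK true tr.get 300129 := ⟨⟨rfl, c2_3_5, rfl, t2_3_5⟩, ⟨rfl, c1_4_5, rfl, t1_4_5⟩, ⟨rfl, c1_3_6, rfl, t1_3_6⟩⟩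
theorem k300160 : PK true tr.get 300160 := ⟨⟨rfl, c1_4_5, rfl, t1_4_5⟩, ⟨rfl, c0_5_5, rfl, t0_5_5⟩, ⟨rfl, c0_4_6, rfl, t0_4_6⟩⟩
theorem k301059 : PK true tr.get 301059 := ⟨⟨rfl, c4_0_6, rfl, t4_0_6⟩, ⟨rfl, c3_1_6, rfl, t3_1_6⟩, ⟨rfl, c3_0_7, rfl, t3_0_7⟩⟩
theorem k301090 : PK true tr.get 301090 := ⟨⟨rfl, c3_1_6, rfl, t3_1_6⟩, ⟨rfl, c2_2_6, rfl, t2_2_6⟩, ⟨rfl, c2_1_7, rfl, t2_1_7⟩⟩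
theorem k301121 : PK true tr.get 301121 := ⟨⟨rfl, c2_2_6, rfl, t2_2_6⟩, ⟨rfl, c1_3_6, rfl, t1_3_6⟩, ⟨rfl, c1_2_7, rfl, t1_2_7⟩⟩
theorem k301152 : PK true tr.get 301152 := ⟨⟨rfl, c1_3_6, rfl, t1_3_6⟩, ⟨rfl, c0_4_6, rfl, t0_4_6⟩, ⟨rfl, c0_3_7, rfl, t0_3_7⟩⟩
theorem k328899 : PK true tr.get 328899 := ⟨⟨rfl, c4_6_1, rfl, t4_6_1⟩, ⟨rfl, c3_7_1, rfl, t3_7_1⟩, ⟨rfl, c3_6_2, rfl, t3_6_2⟩⟩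
theorem k329891 : PK true tr.get 329891 := ⟨⟨rfl, c4_5_2, rfl, t4_5_2⟩, ⟨rfl, c3_6_2, rfl, t3_6_2⟩, ⟨rfl, c3_5_3, rfl, t3_5_3⟩⟩
theorem k329922 : PK true tr.get 329922 := ⟨⟨rfl, c3_6_2, rfl, t3_6_2⟩, ⟨rfl, c2_7_2, rfl, t2_7_2⟩, ⟨rfl, c2_6_3, rfl, t2_6_3⟩⟩
theorem k330883 : PK true tr.get 330883 := ⟨⟨rfl, c4_4_3, rfl, t4_4_3⟩, ⟨rfl, c3_5_3, rfl, t3_5_3⟩, ⟨rfl, c3_4_4, rfl, t3_4_4⟩⟩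
theorem k330914 : PK true tr.get 330914 := ⟨⟨rfl, c3_5_3, rfl, t3_5_3⟩, ⟨rfl, c2_6_3, rfl, t2_6_3⟩, ⟨rfl, c2_5_4, rfl, t2_5_4⟩⟩
theorem k330945 : PK true tr.get 330945 := ⟨⟨rfl, c2_6_3, rfl, t2_6_3⟩, ⟨rfl, c1_7_3, rfl, t1_7_3⟩, ⟨rfl, c1_6_4, rfl, t1_6_4⟩⟩
theorem k331875 : PK true tr.get 331875 := ⟨⟨rfl, c4_3_4, rfl, t4_3_4⟩, ⟨rfl, c3_4_4, rfl, t3_4_4⟩, ⟨rfl, c3_3_5, rfl, t3_3_5⟩⟩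
theorem k331906 : PK true tr.get 331906 := ⟨⟨rfl, c3_4_4, rfl, t3_4_4⟩, ⟨rfl, c2_5_4, rfl, t2_5_4⟩, ⟨rfl, c2_4_5, rfl, t2_4_5⟩⟩
theorem k331937 : PK true tr.get 331937 := ⟨⟨rfl, c2_5_4, rfl, t2_5_4⟩, ⟨rfl, c1_6_4, rfl, t1_6_4⟩, ⟨rfl, c1_5_5, rfl, t1_5_5⟩⟩
theorem k331968 : PK true tr.get 331968 := ⟨⟨rfl, c1_6_4, rfl, t1_6_4⟩, ⟨rfl, c0_7_4, rfl, t0_7_4⟩, ⟨rfl, c0_6_5, rfl, t0_6_5⟩⟩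
theorem k332867 : PK true tr.get 332867 := ⟨⟨rfl, c4_2_5, rfl, t4_2_5⟩, ⟨rfl, c3_3_5, rfl, t3_3_5⟩, ⟨rfl, c3_2_6, rfl, t3_2_6⟩⟩
theorem k332898 : PK true tr.get 332898 := ⟨⟨rfl, c3_3_5, rfl, t3_3_5⟩, ⟨rfl, c2_4_5, rfl, t2_4_5⟩, ⟨rfl, c2_3_6, rfl, t2_3_6⟩⟩
theorem k332929 : PK true tr.get 332929 := ⟨⟨rfl, c2_4_5, rfl, t2_4_5⟩, ⟨rfl, c1_5_5, rfl, t1_5_5⟩, ⟨rfl, c1_4_6, rfl, t1_4_6⟩⟩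
theorem k332960 : PK true tr.get 332960 := ⟨⟨rfl, c1_5_5, rfl, t1_5_5⟩, ⟨rfl, c0_6_5, rfl, t0_6_5⟩, ⟨rfl, c0_5_6, rfl, t0_5_6⟩⟩
theorem k333859 : PK true tr.get 333859 := ⟨⟨rfl, c4_1_6, rfl, t4_1_6⟩, ⟨rfl, c3_2_6, rfl, t3_2_6⟩, ⟨rfl, c3_1_7, rfl, t3_1_7⟩⟩
theorem k333890 : PK true tr.get 333890 := ⟨⟨rfl, c3_2_6, rfl, t3_2_6⟩, ⟨rfl, c2_3_6, rfl, t2_3_6⟩, ⟨rfl, c2_2_7, rfl, t2_2_7⟩⟩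
theorem k333921 : PK true tr.get 333921 := ⟨⟨rfl, c2_3_6, rfl, t2_3_6⟩, ⟨rfl, c1_4_6, rfl, t1_4_6⟩, ⟨rfl, c1_3_7, rfl, t1_3_7⟩⟩
theorem k333952 : PK true tr.get 333952 := ⟨⟨rfl, c1_4_6, rfl, t1_4_6⟩, ⟨rfl, c0_5_6, rfl, t0_5_6⟩, ⟨rfl, c0_4_7, rfl, t0_4_7⟩⟩
theorem k362691 : PK true tr.get 362691 := ⟨⟨rfl, c4_6_2, rfl, t4_6_2⟩, ⟨rfl, c3_7_2, rfl, t3_7_2⟩, ⟨rfl, c3_6_3, rfl, t3_6_3⟩⟩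
theorem k363683 : PK true tr.get 363683 := ⟨⟨rfl, c4_5_3, rfl, t4_5_3⟩, ⟨rfl, c3_6_3, rfl, t3_6_3⟩, ⟨rfl, c3_5_4, rfl, t3_5_4⟩⟩
theorem k363714 : PK true tr.get 363714 := ⟨⟨rfl, c3_6_3, rfl, t3_6_3⟩, ⟨rfl, c2_7_3, rfl, t2_7_3⟩, ⟨rfl, c2_6_4, rfl, t2_6_4⟩⟩
theorem k364675 : PK true tr.get 364675 := ⟨⟨rfl, c4_4_4, rfl, t4_4_4⟩, ⟨rfl, c3_5_4, rfl, t3_5_4⟩, ⟨rfl, c3_4_5, rfl, t3_4_5⟩⟩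
theorem k364706 : PK true tr.get 364706 := ⟨⟨rfl, c3_5_4, rfl, t3_5_4⟩, ⟨rfl, c2_6_4, rfl, t2_6_4⟩, ⟨rfl, c2_5_5, rfl, t2_5_5⟩⟩
theorem k364737 : PK true tr.get 364737 := ⟨⟨rfl, c2_6_4, rfl, t2_6_4⟩, ⟨rfl, c1_7_4, rfl, t1_7_4⟩, ⟨rfl, c1_6_5, rfl, t1_6_5⟩⟩
theorem k365667 : PK true tr.get 365667 := ⟨⟨rfl, c4_3_5, rfl, t4_3_5⟩, ⟨rfl, c3_4_5, rfl, t3_4_5⟩, ⟨rfl, c3_3_6, rfl, t3_3_6⟩⟩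
theorem k365698 : PK true tr.get 365698 := ⟨⟨rfl, c3_4_5, rfl, t3_4_5⟩, ⟨rfl, c2_5_5, rfl, t2_5_5⟩, ⟨rfl, c2_4_6, rfl, t2_4_6⟩⟩
theorem k365729 : PK true tr.get 365729 := ⟨⟨rfl, c2_5_5, rfl, t2_5_5⟩, ⟨rfl, c1_6_5, rfl, t1_6_5⟩, ⟨rfl, c1_5_6, rfl, t1_5_6⟩⟩
theorem k365760 : PK true tr.get 365760 := ⟨⟨rfl, c1_6_5, rfl, t1_6_5⟩, ⟨rfl, c0_7_5, rfl, t0_7_5⟩, ⟨rfl, c0_6_6, rfl, t0_6_6⟩⟩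
theorem k366659 : PK true tr.get 366659 := ⟨⟨rfl, c4_2_6, rfl, t4_2_6⟩, ⟨rfl, c3_3_6, rfl, t3_3_6⟩, ⟨rfl, c3_2_7, rfl, t3_2_7⟩⟩
theorem k366690 : PK true tr.get 366690 := ⟨⟨rfl, c3_3_6, rfl, t3_3_6⟩, ⟨rfl, c2_4_6, rfl, t2_4_6⟩, ⟨rfl, c2_3_7, rfl, t2_3_7⟩⟩
theorem k366721 : PK true tr.get 366721 := ⟨⟨rfl, c2_4_6, rfl, t2_4_6⟩, ⟨rfl, c1_5_6, rfl, t1_5_6⟩, ⟨rfl, c1_4_7, rfl, t1_4_7⟩⟩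
theorem k366752 : PK true tr.get 366752 := ⟨⟨rfl, c1_5_6, rfl, t1_5_6⟩, ⟨rfl, c0_6_6, rfl, t0_6_6⟩, ⟨rfl, c0_5_7, rfl, t0_5_7⟩⟩
theorem k397475 : PK true tr.get 397475 := ⟨⟨rfl, c4_5_4, rfl, t4_5_4⟩, ⟨rfl, c3_6_4, rfl, t3_6_4⟩, ⟨rfl, c3_5_5, rfl, t3_5_5⟩⟩
theorem k397506 : PK true tr.get 397506 := ⟨⟨rfl, c3_6_4, rfl, t3_6_4⟩, ⟨rfl, c2_7_4, rfl, t2_7_4⟩, ⟨rfl, c2_6_5, rfl, t2_6_5⟩⟩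
theorem k398467 : PK true tr.get 398467 := ⟨⟨rfl, c4_4_5, rfl, t4_4_5⟩, ⟨rfl, c3_5_5, rfl, t3_5_5⟩, ⟨rfl, c3_4_6, rfl, t3_4_6⟩⟩
theorem k398498 : PK true tr.get 398498 := ⟨⟨rfl, c3_5_5, rfl, t3_5_5⟩, ⟨rfl, c2_6_5, rfl, t2_6_5⟩, ⟨rfl, c2_5_6, rfl, t2_5_6⟩⟩
theorem k398529 : PK true tr.get 398529 := ⟨⟨rfl, c2_6_5, rfl, t2_6_5⟩, ⟨rfl, c1_7_5, rfl, t1_7_5⟩, ⟨rfl, c1_6_6, rfl, t1_6_6⟩⟩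
theorem k399490 : PK true tr.get 399490 := ⟨⟨rfl, c3_4_6, rfl, t3_4_6⟩, ⟨rfl, c2_5_6, rfl, t2_5_6⟩, ⟨rfl, c2_4_7, rfl, t2_4_7⟩⟩
theorem k399521 : PK true tr.get 399521 := ⟨⟨rfl, c2_5_6, rfl, t2_5_6⟩, ⟨rfl, c1_6_6, rfl, t1_6_6⟩, ⟨rfl, c1_5_7, rfl, t1_5_7⟩⟩
theorem k399552 : PK true tr.get 399552 := ⟨⟨rfl, c1_6_6, rfl, t1_6_6⟩, ⟨rfl, c0_7_6, rfl, t0_7_6⟩, ⟨rfl, c0_6_7, rfl, t0_6_7⟩⟩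
theorem k431267 : PK true tr.get 431267 := ⟨⟨rfl, c4_5_5, rfl, t4_5_5⟩, ⟨rfl, c3_6_5, rfl, t3_6_5⟩, ⟨rfl, c3_5_6, rfl, t3_5_6⟩⟩
theorem k431298 : PK true tr.get 431298 := ⟨⟨rfl, c3_6_5, rfl, t3_6_5⟩, ⟨rfl, c2_7_5, rfl, t2_7_5⟩, ⟨rfl, c2_6_6, rfl, t2_6_6⟩⟩
theorem k432290 : PK true tr.get 432290 := ⟨⟨rfl, c3_5_6, rfl, t3_5_6⟩, ⟨rfl, c2_6_6, rfl, t2_6_6⟩, ⟨rfl, c2_5_7, rfl, t2_5_7⟩⟩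
theorem k464067 : PK true tr.get 464067 := ⟨⟨rfl, c4_6_5, rfl, t4_6_5⟩, ⟨rfl, c3_7_5, rfl, t3_7_5⟩, ⟨rfl, c3_6_6, rfl, t3_6_6⟩⟩
theorem k465059 : PK true tr.get 465059 := ⟨⟨rfl, c4_5_6, rfl, t4_5_6⟩, ⟨rfl, c3_6_6, rfl, t3_6_6⟩, ⟨rfl, c3_5_7, rfl, t3_5_7⟩⟩
theorem k465090 : PK true tr.get 465090 := ⟨⟨rfl, c3_6_6, rfl, t3_6_6⟩, ⟨rfl, c2_7_6, rfl, t2_7_6⟩, ⟨rfl, c2_6_7, rfl, t2_6_7⟩⟩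

theorem all : ∀ k ∈ keys, PK true tr.get k :=
  fa k32769 (fa k32800 (fa k33792 (fa k65569 (fa k66561 (fa k66592 (fa k98338 (fa k98369 (fa k99330 (fa k99361 (fa k99392 (fa k100353 (fa k100384 (fa k131138 (fa k131169 (fa k132130 (fa k132161 (fa k132192 (fa k133122 (fa k133153 (fa k133184 (fa k134145 (fa k134176 (fa k163938 (fa k164930 (fa k164961 (fa k165922 (fa k165953 (fa k165984 (fa k166914 (fa k166945 (fa k166976 (fa k196707 (fa k196738 (fa k197699 (fa k197730 (fa k197761 (fa k198691 (fa k198722 (fa k198753 (fa k198784 (fa k199683 (fa k199714 (fa k199745 (fa k199776 (fa k200706 (fa k200737 (fa k200768 (fa k229507 (fa k230499 (fa k230530 (fa k230561 (fa k231491 (fa k231522 (fa k231553 (fa k232483 (fa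 k232514 (fa k232545 (fa k232576 (fa k233475 (fa k233506 (fa k233537 (fa k233568 (fa k234529 (fa k262307 (fa k263299 (fa k263330 (fa k264291 (fa k264322 (fa k264353 (fa k265283 (fa k265314 (fa k265345 (fa k265376 (fa k266275 (fa k266306 (fa k266337 (fa k266368 (fa k267267 (fa k267298 (fa k267329 (fa k267360 (fa k295107 (fa k296099 (fa k296130 (fa k297091 (fa k297122 (fa k297153 (fa k298083 (fa k298114 (fa k298145 (fa k298176 (fa k299075 (fa k299106 (fa k299137 (fa k299168 (fa k300067 (fa k300098 (fa k300129 (fa k300160 (fa k301059 (fa k301090 (fa k301121 (fa k301152 (fa k328899 (fa k329891 (fa k329922 (fa k330883 (fa k330914 (fa k330945 (fa k331875 (fa k331906 (fa k331937 (fa k331968 (fa k332867 (fa k332898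 (fa k332929 (fa k332960 (fa k333859 (fa k333890 (fa k333921 (fa k333952 (fa k362691 (fa k363683 (fa k363714 (fa k364675 (fa k364706 (fa k364737 (fa k365667 (fa k365698 (fa k365729 (fa k365760 (fa k366659 (fa k366690 (fa k366721 (fa k366752 (fa k397475 (fa k397506 (fa k398467 (fa k398498 (fa k398529 (fa k399490 (fa k399521 (fa k399552 (fa k431267 (fa k431298 (fa k432290 (fa k464067 (fa k465059 (fa k465090 (fn))))))))))))))))))))))))))))))))))))))))))))))))))))))))))))))))))))))))))))))))))))))))))))))))))))))))))))))))))))))))))))))))))))))))))))))))))))))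

theorem hkeys : tr.keys = keys := by decide +kernel

theorem h1 : (keys.all fun k => okNd (tr.get k)) = true := by decide +kernel

theorem h2 : (keys.all fun k => keyOK 3 6 6 k) = true := by decide +kernel

theorem hg : ((tr.get 32769).codes = [4] ∧ (tr.get 32800).codes = [5]) ∧
    (tr.get 33792).codes = [6] := by decide +kernel

theorem bound {L : Type u} [LieRing L] {Hm : Set L} {x : ℕ → L} (H : Hyp Hm x)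
    (hz : ∀ v ∈ Hm, ⁅⁅⁅v, x 0⁆, x 0⁆, x 0⁆ = 0) (w : List ℕ) (hw : isWd w = true)
    (h : lw x w ≠ 0) : w.count 0 ≤ 3 ∧ w.count 1 ≤ 6 ∧ w.count 2 ≤ 6 :=
  table hkeys h1 hg all H (fun _ => hz) (by norm_num) (by norm_num) (by norm_num) h2 w hw h

end Pool.Agent.Y50.FE.CC
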